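import Pool.Agent.H36.HM.EL2

/-! Module DBR: du Bois-Reymond regularity for `s'' + c s = 0`. -/

namespace Pool.Agent.H54.HM

open MeasureTheory Set Filter Topology Real
open Pool.Agent.H99.HM Pool.Agent.H36.HM
open scoped ContDiff

theorem loc_mul {c s : ℝ → ℝ} (hc : ContinuousOn c (Ioi 0)) (hs : LocallyIntegrableOn s (Ioi 0)) :
    LocallyIntegrableOn (fun t => c t * s t) (Ioi 0) := by
  rw [locallyIntegrableOn_iff isOpen_Ioi.isLocallyClosed]
  intro k hk hk2
  exact (hs.integrableOn_compact_subset hk hk2).continuousOn_mul (hc.mono hk) hk2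

theorem loc_ii {h : ℝ → ℝ} (hh : LocallyIntegrableOn h (Ioi 0)) {a b : ℝ} (ha : 0 < a)
    (hb : 0 < b) : IntervalIntegrable h volume a b := by
  have h1 : IntegrableOn h (uIcc a b) := by
    refine hh.integrableOn_compact_subset (fun t ht => ?_) isCompact_uIcc
    rw [mem_uIcc] at ht
    rcases ht with ht | ht
    · exact ha.trans_le ht.1
    · exact hb.trans_le ht.1
  exact h1.intervalIntegrable

theorem prim_cont {h : ℝ → ℝ} (hh : LocallyIntegrableOn h (Ioi 0)) :
    ContinuousOn (fun t => ∫ τ in (1 : ℝ)..t, h τ) (Ioi 0) := by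
  intro t ht
  rw [mem_Ioi] at ht
  have h1 : ContinuousOn (fun t => ∫ τ in (1 : ℝ)..t, h τ) (uIcc (min 1 (t / 2)) (max 1 (t + 1))) := by
    refine intervalIntegral.continuousOn_primitive_interval' (loc_ii hh ?_ ?_) ?_
    · exact lt_min one_pos (by linarith)
    · exact lt_max_of_lt_left one_pos
    · rw [mem_uIcc]
      exact Or.inl ⟨min_le_left _ _, le_max_left _ _⟩
  refine (h1.continuousAt ?_).continuousWithinAt
  rw [uIcc_of_le ((min_le_left _ _).trans (le_max_left _ _))]
  refine Icc_mem_nhds ?_ ?_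
  · exact min_lt_of_right_lt (by linarith)
  · exact lt_max_of_lt_right (by linarith)

theorem prim_der {h : ℝ → ℝ} (hh : ContinuousOn h (Ioi 0)) {t : ℝ} (ht : 0 < t) :
    HasDerivAt (fun t => ∫ τ in (1 : ℝ)..t, h τ) (h t) t := by
  have hl : LocallyIntegrableOn h (Ioi 0) := hh.locallyIntegrableOn measurableSet_Ioi
  refine intervalIntegral.integral_hasDerivAt_right (loc_ii hl one_pos ht) ?_
    (hh.continuousAt (Ioi_mem_nhds ht))
  exact hh.stronglyMeasurableAtFilter isOpen_Ioi _ ht

/-- Integration by parts against a test function, integrable version. -/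
theorem parts_loc {ψ h : ℝ → ℝ} (hψ : Continuous ψ) {a b : ℝ} (ha : 0 < a) (hab : a < b)
    (h1 : ∀ t, t ≤ a → ψ t = 0) (h2 : ∀ t, b ≤ t → ψ t = 0) (h0 : ∫ t, ψ t = 0)
    (hh : LocallyIntegrableOn h (Ioi 0)) :
    ∫ t in Ioi (0 : ℝ), h t * Vg ψ t =
      - ∫ t in Ioi (0 : ℝ), (∫ τ in (1 : ℝ)..t, h τ) * ψ t := by
  obtain ⟨k1, k2, k3⟩ := Vg_test hψ ha h1 h2 h0
  have hsub : Ioc a b ⊆ Ioi 0 := fun t ht => ha.trans ht.1
  have e1 : ∫ t in Ioi (0 : ℝ), h t * Vg ψ t = ∫ t in a..b, h t * Vg ψ t := by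
    rw [intervalIntegral.integral_of_le hab.le]
    refine (setIntegral_eq_of_subset_of_forall_sdiff_eq_zero measurableSet_Ioi hsub ?_)
    intro t ht
    have h3 := ht.2
    rw [mem_Ioc, not_and_or, not_lt, not_le] at h3
    rcases h3 with h | h
    · rw [k2 t h, mul_zero]
    · rw [k3 t h.le, mul_zero]
  have e2 : ∫ t in Ioi (0 : ℝ), (∫ τ in (1 : ℝ)..t, h τ) * ψ t =
      ∫ t in a..b, (∫ τ in (1 : ℝ)..t, h τ) * ψ t := by
    rw [intervalIntegral.integral_of_le hab.le]
    refine (setIntegral_eq_of_subset_of_forall_sdiff_eq_zero measurableSet_Ioi hsub ?_)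
    intro t ht
    have h3 := ht.2
    rw [mem_Ioc, not_and_or, not_lt, not_le] at h3
    rcases h3 with h | h
    · rw [h1 t h, mul_zero]
    · rw [h2 t h.le, mul_zero]
  have hii : IntervalIntegrable h volume a b := loc_ii hh ha (ha.trans hab)
  have hpi : IntervalIntegrable ψ volume a b := hψ.intervalIntegrable _ _
  -- absolutely continuous primitives based at `a`
  set H : ℝ → ℝ := fun x => ∫ t in a..x, h t with hH
  set K : ℝ → ℝ := fun x => ∫ t in a..x, ψ t with hK
  have aH : AbsolutelyContinuousOnInterval H a b :=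
    hii.absolutelyContinuousOnInterval_intervalIntegral left_mem_uIcc
  have aK : AbsolutelyContinuousOnInterval K a b :=
    hpi.absolutelyContinuousOnInterval_intervalIntegral left_mem_uIcc
  have hVK : ∀ x, Vg ψ x = K x := by
    intro x
    have : Vg ψ x = Vg ψ a + K x := by
      simp only [Vg, hK]
      rw [intervalIntegral.integral_add_adjacent_intervals (hψ.intervalIntegrable _ _)
        (hψ.intervalIntegrable _ _)]
    rw [this, k2 a le_rfl, zero_add]
  have e3 := aK.integral_mul_deriv_eq_deriv_mul aH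
  have e4 : ∫ x in a..b, K x * deriv H x = ∫ x in a..b, h x * Vg ψ x := by
    refine intervalIntegral.integral_congr_ae ?_
    filter_upwards [hii.ae_hasDerivAt_integral] with x hx hx2
    rw [(hx (uIoc_subset_uIcc hx2) a left_mem_uIcc).deriv, hVK, mul_comm]
  have e5 : ∫ x in a..b, deriv K x * H x = ∫ x in a..b, ψ x * H x := by
    refine intervalIntegral.integral_congr_ae ?_
    filter_upwards [hpi.ae_hasDerivAt_integral] with x hx hx2
    rw [(hx (uIoc_subset_uIcc hx2) a left_mem_uIcc).deriv]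
  have e6 : K b = 0 := by rw [← hVK]; exact k3 b le_rfl
  have e7 : K a = 0 := by rw [← hVK]; exact k2 a le_rfl
  rw [e4, e5, e6, e7, zero_mul, zero_mul, sub_zero, zero_sub] at e3
  rw [e1, e2, e3]
  congr 1
  -- constants drop out
  have hc : ContinuousOn H (uIcc a b) := aH.continuousOn
  have e8 : ∫ x in a..b, (∫ τ in (1 : ℝ)..x, h τ) * ψ x =
      ∫ x in a..b, ((∫ τ in (1 : ℝ)..a, h τ) * ψ x + ψ x * H x) := by
    refine intervalIntegral.integral_congr (fun x hx => ?_)
    rw [uIcc_of_le hab.le] at hx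
    have hx0 : 0 < x := ha.trans_le hx.1
    simp only [hH]
    rw [← intervalIntegral.integral_add_adjacent_intervals (loc_ii hh one_pos ha)
      (loc_ii hh ha hx0)]
    ring
  have e9 : ∫ x in a..b, ψ x = 0 := by
    have : Vg ψ b = 0 := k3 b le_rfl
    rw [hVK] at this
    exact this
  rw [e8, intervalIntegral.integral_add (hpi.const_mul _) (hpi.mul_continuousOn hc),
    intervalIntegral.integral_const_mul, e9, mul_zero, zero_add]

theorem loc_int {f : ℝ → ℝ} (hf : LocallyIntegrableOn f (Ioi 0)) {ψ : ℝ → ℝ}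
    (p1 : ContinuousOn ψ (Ioi 0)) (p2 : HasCompactSupport ψ) (p3 : tsupport ψ ⊆ Ioi 0) :
    Integrable (fun t => ψ t * f t) := by
  have h1 : IntegrableOn f (tsupport ψ) := hf.integrableOn_compact_subset p3 p2
  have h2 : IntegrableOn (fun t => ψ t * f t) (tsupport ψ) :=
    h1.continuousOn_mul (p1.mono p3) p2
  refine (integrableOn_iff_integrable_of_support_subset ?_).1 h2
  intro t ht
  by_contra hcon
  exact ht (by simp [image_eq_zero_of_notMem_tsupport hcon])

theorem set_eq {F : ℝ → ℝ} (h : ∀ t, t ≤ 0 → F t = 0) : ∫ t in Ioi (0 : ℝ), F t = ∫ t, F t := by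
  refine setIntegral_eq_integral_of_forall_compl_eq_zero (fun t ht => h t ?_)
  simpa using ht

theorem ts_pos {ψ : ℝ → ℝ} (hs : tsupport ψ ⊆ Ioi 0) {t : ℝ} (ht : t ≤ 0) : ψ t = 0 := by
  refine image_eq_zero_of_notMem_tsupport (fun h => ?_)
  have := hs h
  rw [mem_Ioi] at this
  linarith

theorem tsd {ψ : ℝ → ℝ} : tsupport (deriv ψ) ⊆ tsupport ψ :=
  closure_minimal support_deriv_subset isClosed_closure

/-- properties of `Vg ψ` for a test function `ψ` of mean zero -/
theorem Vg_smooth {ψ : ℝ → ℝ} (p1 : ContDiff ℝ ∞ ψ) (p2 : HasCompactSupport ψ)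
    (p3 : tsupport ψ ⊆ Ioi 0) (h0 : ∫ t, ψ t = 0) :
    ContDiff ℝ ∞ (Vg ψ) ∧ HasCompactSupport (Vg ψ) ∧ tsupport (Vg ψ) ⊆ Ioi 0 ∧
      deriv (Vg ψ) = ψ := by
  obtain ⟨a, b, ha, hab, h1, h2⟩ := supp_bounds p2 p3
  obtain ⟨k1, k2, k3⟩ := Vg_test p1.continuous ha h1 h2 h0
  have hd : deriv (Vg ψ) = ψ := funext fun t => (k1 t).deriv
  have hsupp : Function.support (Vg ψ) ⊆ Icc a b := by
    intro t ht
    constructor
    · by_contra hcon
      exact ht (k2 t (not_le.1 hcon).le)
    · by_contra hcon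
      exact ht (k3 t (not_le.1 hcon).le)
  have hts : tsupport (Vg ψ) ⊆ Icc a b := closure_minimal hsupp isClosed_Icc
  refine ⟨?_, ?_, ?_, hd⟩
  · rw [show (∞ : WithTop ℕ∞) = ∞ from rfl, contDiff_infty_iff_deriv]
    exact ⟨fun t => (k1 t).differentiableAt, by rw [hd]; exact p1⟩
  · exact HasCompactSupport.of_support_subset_isCompact isCompact_Icc hsupp
  · exact hts.trans (fun t ht => ha.trans_le ht.1)

theorem dbr_real {s c : ℝ → ℝ} (hc : ContinuousOn c (Ioi 0))
    (hs : LocallyIntegrableOn s (Ioi 0))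
    (h : ∀ η : ℝ → ℝ, ContDiff ℝ ∞ η → HasCompactSupport η → tsupport η ⊆ Ioi 0 →
      ∫ r in Ioi (0 : ℝ), (deriv (deriv η) r + c r * η r) * s r = 0) :
    ∃ z z1 : ℝ → ℝ, (∀ᵐ r ∂(volume.restrict (Ioi (0 : ℝ))), z r = s r) ∧
      (∀ r, 0 < r → HasDerivAt z (z1 r) r) ∧
      (∀ r, 0 < r → HasDerivAt z1 (-(c r) * z r) r) := by
  have hcs : LocallyIntegrableOn (fun t => c t * s t) (Ioi 0) := loc_mul hc hs
  set P1 : ℝ → ℝ := fun t => ∫ τ in (1 : ℝ)..t, c τ * s τ with hP1
  have cP1 : ContinuousOn P1 (Ioi 0) := prim_cont hcs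
  set P : ℝ → ℝ := fun t => ∫ τ in (1 : ℝ)..t, P1 τ with hP
  have dP : ∀ t, 0 < t → HasDerivAt P (P1 t) t := fun t ht => prim_der cP1 ht
  have cP : ContinuousOn P (Ioi 0) := fun t ht => (dP t ht).continuousAt.continuousWithinAt
  have lP1 : LocallyIntegrableOn P1 (Ioi 0) := cP1.locallyIntegrableOn measurableSet_Ioi
  have lP : LocallyIntegrableOn P (Ioi 0) := cP.locallyIntegrableOn measurableSet_Ioi
  -- step A
  have stepA : ∀ ψ : ℝ → ℝ, ContDiff ℝ ∞ ψ → HasCompactSupport ψ → tsupport ψ ⊆ Ioi 0 →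
      ∫ t, ψ t = 0 → ∫ t, deriv ψ t * s t = ∫ t, ψ t * P1 t := by
    intro ψ p1 p2 p3 p4
    obtain ⟨a, b, ha, hab, h1, h2⟩ := supp_bounds p2 p3
    obtain ⟨v1, v2, v3, v4⟩ := Vg_smooth p1 p2 p3 p4
    have h3 := h (Vg ψ) v1 v2 v3
    rw [v4] at h3
    have h4 := parts_loc p1.continuous ha hab h1 h2 p4 hcs
    have i1 : Integrable (fun t => deriv ψ t * s t) := by
      refine loc_int hs ?_ p2.deriv ?_
      · exact (p1.continuous_deriv (by simp)).continuousOn
      · exact tsd.trans p3
    have i2 : Integrable (fun t => Vg ψ t * (c t * s t)) :=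
      loc_int hcs v1.continuous.continuousOn v2 v3
    have h5 : ∫ r in Ioi (0 : ℝ), (deriv ψ r + c r * Vg ψ r) * s r =
        (∫ r in Ioi (0 : ℝ), deriv ψ r * s r) + ∫ r in Ioi (0 : ℝ), c r * s r * Vg ψ r := by
      rw [← integral_add i1.integrableOn (by
        refine i2.integrableOn.congr (Eventually.of_forall (fun t => ?_))
        simp only
        ring)]
      refine integral_congr_ae (Eventually.of_forall (fun t => ?_))
      simp only
      ring
    rw [h5, h4] at h3
    have e1 : ∫ r in Ioi (0 : ℝ), deriv ψ r * s r = ∫ r, deriv ψ r * s r :=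
      set_eq (fun t ht => by
        rw [ts_pos (tsd.trans p3) ht, zero_mul])
    have e2 : ∫ r in Ioi (0 : ℝ), P1 r * ψ r = ∫ r, P1 r * ψ r :=
      set_eq (fun t ht => by rw [ts_pos p3 ht, mul_zero])
    have e3 : ∫ r, P1 r * ψ r = ∫ r, ψ r * P1 r :=
      integral_congr_ae (Eventually.of_forall (fun t => mul_comm _ _))
    rw [← e3, ← e2, ← e1]
    linarith
  -- reference bump
  let B : ContDiffBump (1 : ℝ) := ⟨1 / 4, 1 / 2, by norm_num, by norm_num⟩
  set ψ0 : ℝ → ℝ := B.normed volume with hψ0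
  have b1 : ContDiff ℝ ∞ ψ0 := B.contDiff_normed
  have b2 : HasCompactSupport ψ0 := B.hasCompactSupport_normed
  have b3 : tsupport ψ0 ⊆ Ioi 0 := by
    rw [hψ0, B.tsupport_normed_eq]
    intro t ht
    rw [Metric.mem_closedBall, Real.dist_eq, abs_le] at ht
    have h3 : B.rOut = 1 / 2 := rfl
    rw [h3] at ht
    rw [mem_Ioi]; linarith [ht.1]
  have b4 : ∫ t, ψ0 t = 1 := B.integral_normed
  set K : ℝ := (∫ t, deriv ψ0 t * s t) - ∫ t, ψ0 t * P1 t with hK
  -- step B
  have stepB : ∀ θ : ℝ → ℝ, ContDiff ℝ ∞ θ → HasCompactSupport θ → tsupport θ ⊆ Ioi 0 →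
      ∫ t, θ t = 0 → ∫ t, θ t * (s t + P t + K * t) = 0 := by
    intro θ p1 p2 p3 p4
    obtain ⟨a, b, ha, hab, h1, h2⟩ := supp_bounds p2 p3
    obtain ⟨v1, v2, v3, v4⟩ := Vg_smooth p1 p2 p3 p4
    set m := ∫ t, Vg θ t with hm
    have i3 : Integrable (Vg θ) := v1.continuous.integrable_of_hasCompactSupport v2
    have i4 : Integrable ψ0 := b1.continuous.integrable_of_hasCompactSupport b2
    have h3 := stepA (fun t => Vg θ t - m * ψ0 t) (v1.sub (contDiff_const.mul b1))
      (v2.sub b2.mul_left) ((tsupport_sub _ _).trans (union_subset v3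
        ((tsupport_mul_subset_right).trans b3))) (by
        rw [integral_sub i3 (i4.const_mul m), integral_const_mul, b4]; ring)
    have hd0 : Differentiable ℝ ψ0 := b1.differentiable (by simp)
    have hdV : Differentiable ℝ (Vg θ) := v1.differentiable (by simp)
    have hder : deriv (fun t => Vg θ t - m * ψ0 t) = fun t => θ t - m * deriv ψ0 t := by
      funext t
      rw [deriv_fun_sub (hdV t) ((hd0 t).const_mul m), deriv_const_mul _ (hd0 t), v4]
    rw [hder] at h3
    have j1 : Integrable (fun t => θ t * s t) := loc_int hs p1.continuous.continuousOn p2 p3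
    have j2 : Integrable (fun t => deriv ψ0 t * s t) :=
      loc_int hs (b1.continuous_deriv (by simp)).continuousOn b2.deriv
        (tsd.trans b3)
    have j3 : Integrable (fun t => Vg θ t * P1 t) :=
      loc_int lP1 v1.continuous.continuousOn v2 v3
    have j4 : Integrable (fun t => ψ0 t * P1 t) :=
      loc_int lP1 b1.continuous.continuousOn b2 b3
    have j5 : Integrable (fun t => θ t * P t) := loc_int lP p1.continuous.continuousOn p2 p3
    have j6 : Integrable (fun t => θ t * t) :=
      (p1.continuous.mul continuous_id).integrable_of_hasCompactSupport p2.mul_right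
    have h4 : ∫ t, (θ t - m * deriv ψ0 t) * s t =
        (∫ t, θ t * s t) - m * ∫ t, deriv ψ0 t * s t := by
      rw [← integral_const_mul, ← integral_sub j1 (j2.const_mul m)]
      refine integral_congr_ae (Eventually.of_forall (fun t => ?_))
      simp only
      ring
    have h5 : ∫ t, (Vg θ t - m * ψ0 t) * P1 t =
        (∫ t, Vg θ t * P1 t) - m * ∫ t, ψ0 t * P1 t := by
      rw [← integral_const_mul, ← integral_sub j3 (j4.const_mul m)]
      refine integral_congr_ae (Eventually.of_forall (fun t => ?_))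
      simp only
      ring
    rw [h4, h5] at h3
    -- first moments
    have h6 := parts_test p1.continuous ha hab h1 h2 p4 (q := P1) (Q := P) cP1 dP
    have h7 := parts_test p1.continuous ha hab h1 h2 p4 (q := fun _ => 1) (Q := fun t => t)
      continuousOn_const (fun t _ => hasDerivAt_id t)
    have e1 : ∫ r in Ioi (0 : ℝ), P1 r * Vg θ r = ∫ r, Vg θ r * P1 r := by
      rw [set_eq (fun t ht => by rw [ts_pos v3 ht, mul_zero])]
      exact integral_congr_ae (Eventually.of_forall (fun t => mul_comm _ _))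
    have e2 : ∫ r in Ioi (0 : ℝ), P r * θ r = ∫ r, θ r * P r := by
      rw [set_eq (fun t ht => by rw [ts_pos p3 ht, mul_zero])]
      exact integral_congr_ae (Eventually.of_forall (fun t => mul_comm _ _))
    have e3 : ∫ r in Ioi (0 : ℝ), (1 : ℝ) * Vg θ r = m := by
      rw [set_eq (fun t ht => by rw [ts_pos v3 ht, mul_zero])]
      exact integral_congr_ae (Eventually.of_forall (fun t => one_mul _))
    have e4 : ∫ r in Ioi (0 : ℝ), r * θ r = ∫ r, θ r * r := by
      rw [set_eq (fun t ht => by rw [ts_pos p3 ht, mul_zero])]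
      exact integral_congr_ae (Eventually.of_forall (fun t => mul_comm _ _))
    rw [e1, e2] at h6
    rw [e3, e4] at h7
    have h8 : ∫ t, θ t * (s t + P t + K * t) =
        (∫ t, θ t * s t) + (∫ t, θ t * P t) + K * ∫ t, θ t * t := by
      rw [← integral_const_mul, ← integral_add j1 j5]
      have j7 : Integrable (fun t => θ t * s t + θ t * P t) := j1.add j5
      rw [← integral_add j7 (j6.const_mul K)]
      refine integral_congr_ae (Eventually.of_forall (fun t => ?_))
      simp only
      ring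
    rw [h8]
    have : ∫ t, θ t * t = -m := by linarith
    rw [this]
    linear_combination h3 + h6
  have lsum : LocallyIntegrableOn (fun t => s t + P t + K * t) (Ioi 0) := by
    refine (hs.add lP).add ?_
    exact ((continuous_const.mul continuous_id).continuousOn).locallyIntegrableOn
      measurableSet_Ioi
  obtain ⟨A, hA⟩ := dubois lsum stepB
  set z : ℝ → ℝ := fun t => A - K * t - P t with hz
  set z1 : ℝ → ℝ := fun t => -K - P1 t with hz1
  have hzs : ∀ᵐ r ∂(volume.restrict (Ioi (0 : ℝ))), z r = s r := by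
    filter_upwards [hA] with t ht
    simp only [hz]
    linarith
  have dz : ∀ r, 0 < r → HasDerivAt z (z1 r) r := by
    intro r hr
    have := (((hasDerivAt_const r A).sub ((hasDerivAt_id r).const_mul K))).sub (dP r hr)
    have e : z1 r = 0 - K * 1 - P1 r := by simp [hz1]
    rw [e]
    exact this
  have cz : ContinuousOn z (Ioi 0) := fun t ht => (dz t ht).continuousAt.continuousWithinAt
  have ccz : ContinuousOn (fun t => c t * z t) (Ioi 0) := hc.mul cz
  have hP1' : ∀ t, 0 < t → P1 t = ∫ τ in (1 : ℝ)..t, c τ * z τ := by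
    intro t ht
    refine intervalIntegral.integral_congr_ae ?_
    rw [ae_restrict_iff' measurableSet_Ioi] at hzs
    filter_upwards [hzs] with τ hτ hτ2
    have : τ ∈ Ioi (0 : ℝ) := by
      have h1 := hτ2.1
      rw [mem_Ioi]
      exact (lt_min one_pos ht).trans h1
    rw [hτ this]
  refine ⟨z, z1, hzs, dz, fun r hr => ?_⟩
  have h1 : HasDerivAt P1 (c r * z r) r := by
    refine (prim_der ccz hr).congr_of_eventuallyEq ?_
    filter_upwards [Ioi_mem_nhds hr] with t ht
    exact hP1' t ht
  have := (hasDerivAt_const r (-K)).sub h1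
  have e : -(c r) * z r = 0 - c r * z r := by ring
  rw [e]
  exact this

theorem dbr : T_dbr := by
  intro s c hc hs h
  have hsl : LocallyIntegrableOn s (Ioi 0) := by
    rw [locallyIntegrableOn_iff isOpen_Ioi.isLocallyClosed]
    intro k hk hk2
    have : IsFiniteMeasure (volume.restrict k) := ⟨by
      rw [Measure.restrict_apply_univ]; exact hk2.measure_lt_top⟩
    exact (hs.mono_measure (Measure.restrict_mono hk le_rfl)).integrable one_le_two
  have hre : LocallyIntegrableOn (fun r => (s r).re) (Ioi 0) := by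
    rw [locallyIntegrableOn_iff isOpen_Ioi.isLocallyClosed] at hsl ⊢
    intro k hk hk2
    exact (hsl k hk hk2).re
  have him : LocallyIntegrableOn (fun r => (s r).im) (Ioi 0) := by
    rw [locallyIntegrableOn_iff isOpen_Ioi.isLocallyClosed] at hsl ⊢
    intro k hk hk2
    exact (hsl k hk hk2).im
  have hint : ∀ η : ℝ → ℝ, ContDiff ℝ ∞ η → HasCompactSupport η → tsupport η ⊆ Ioi 0 →
      Integrable (fun r => ((deriv (deriv η) r + c r * η r : ℝ) : ℂ) * s r)
        (volume.restrict (Ioi 0)) := by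
    intro η p1 p2 p3
    have hcomp : ContinuousOn (fun r => ((deriv (deriv η) r + c r * η r : ℝ) : ℂ))
        (tsupport η) := by
      refine Complex.continuous_ofReal.comp_continuousOn ?_
      have h2 : ContDiff ℝ ∞ (deriv η) := (contDiff_infty_iff_deriv.1 p1).2
      have h3 : ContDiff ℝ ∞ (deriv (deriv η)) := (contDiff_infty_iff_deriv.1 h2).2
      exact h3.continuous.continuousOn.add ((hc.mono p3).mul p1.continuous.continuousOn)
    have h1 : IntegrableOn s (tsupport η) := hsl.integrableOn_compact_subset p3 p2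
    have h2 := h1.continuousOn_mul hcomp p2
    refine Integrable.integrableOn ?_
    refine (integrableOn_iff_integrable_of_support_subset ?_).1 h2
    intro t ht
    by_contra hcon
    apply ht
    have e1 : η t = 0 := image_eq_zero_of_notMem_tsupport hcon
    have e2 : deriv (deriv η) t = 0 := by
      refine image_eq_zero_of_notMem_tsupport (fun h => hcon ?_)
      exact tsd (tsd h)
    simp [e1, e2]
  obtain ⟨x, x1, hx, dx, dx1⟩ := dbr_real hc hre (fun η p1 p2 p3 => by
    have h1 := h η p1 p2 p3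
    have h2 := integral_re (hint η p1 p2 p3)
    have h3 : ∫ r in Ioi (0 : ℝ), (deriv (deriv η) r + c r * η r) * (s r).re =
        ∫ r in Ioi (0 : ℝ), RCLike.re (((deriv (deriv η) r + c r * η r : ℝ) : ℂ) * s r) := by
      refine integral_congr_ae (Eventually.of_forall (fun r => ?_))
      simp
    rw [h3, h2, h1]
    simp)
  obtain ⟨y, y1, hy, dy, dy1⟩ := dbr_real hc him (fun η p1 p2 p3 => by
    have h1 := h η p1 p2 p3
    have h2 := integral_im (hint η p1 p2 p3)
    have h3 : ∫ r in Ioi (0 : ℝ), (deriv (deriv η) r + c r * η r) * (s r).im =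
        ∫ r in Ioi (0 : ℝ), RCLike.im (((deriv (deriv η) r + c r * η r : ℝ) : ℂ) * s r) := by
      refine integral_congr_ae (Eventually.of_forall (fun r => ?_))
      simp
    rw [h3, h2, h1]
    simp)
  refine ⟨fun r => (x r : ℂ) + (y r : ℂ) * Complex.I,
    fun r => (x1 r : ℂ) + (y1 r : ℂ) * Complex.I, ?_, fun r hr => ?_, fun r hr => ?_⟩
  · filter_upwards [hx, hy] with r h1 h2
    rw [h1, h2, Complex.re_add_im]
  · exact (dx r hr).ofReal_comp.add ((dy r hr).ofReal_comp.mul_const _)
  · have := (dx1 r hr).ofReal_comp.add ((dy1 r hr).ofReal_comp.mul_const Complex.I)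
    have e : -(c r : ℂ) * ((x r : ℂ) + (y r : ℂ) * Complex.I) =
        ((-(c r) * x r : ℝ) : ℂ) + ((-(c r) * y r : ℝ) : ℂ) * Complex.I := by
      push_cast
      ring
    simp only [e]
    exact this

end Pool.Agent.H54.HM
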