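import Pool.Agent.H99.HM.Targets

namespace Pool.Agent.H54.HM

open MeasureTheory Set Filter Topology Real Pool.Agent.H99.HM

theorem gt1 (hF : T_facts) : T_gt1 := by
  intro x s s1 hE
  obtain F := hF x 0 s s1 hE
  by_contra hM
  push Not at hM
  have h1S : ∀ t, 0 ≤ t → 0 < 1 - Sf s t := fun t ht => by
    have := F.Slt t ht; linarith
  have hphi : ∀ t, 0 < t → 0 < phi x s t := by
    intro t ht
    have hx := hE.x0
    unfold phi
    rw [setIntegral_pos_iff_support_of_nonneg_ae]
    · have : Function.support (fun τ => (1 - Sf s τ) / (x + τ) ^ 2) ∩ Ioi t = Ioi t := by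
        apply inter_eq_right.2
        intro τ hτ
        have hτ' : t < τ := hτ
        have h2 : 0 < x + τ := by linarith
        have := h1S τ (by linarith)
        exact ne_of_gt (by positivity)
      rw [this]
      simp
    · filter_upwards [ae_restrict_mem measurableSet_Ioi] with τ hτ
      have hτ' : t < τ := hτ
      have h2 : 0 < x + τ := by linarith
      have := h1S τ (by linarith)
      positivity
    · exact F.phiInt t ht
  have hanti : ∀ a b, 0 < a → a ≤ b → s1 b ≤ s1 a := by
    intro a b ha hab
    have hA : AntitoneOn s1 (Ioi 0) := by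
      apply antitoneOn_of_deriv_nonpos (convex_Ioi 0)
      · exact fun t ht => (hE.der1 t ht).continuousAt.continuousWithinAt
      · intro t ht
        rw [interior_Ioi] at ht
        exact (hE.der1 t ht).differentiableAt.differentiableWithinAt
      · intro t ht
        rw [interior_Ioi] at ht
        rw [(hE.der1 t ht).deriv]
        have := hphi t ht
        have := hE.pos t ht
        nlinarith [mul_pos (hphi t ht) (hE.pos t ht)]
    exact hA ha (lt_of_lt_of_le ha hab) hab
  have hnn : ∀ t, 0 < t → 0 ≤ s1 t := by
    intro t0 ht0
    by_contra hneg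
    push Not at hneg
    have hA : AntitoneOn (fun t => s t - s1 t0 * t) (Ici t0) := by
      have hd : ∀ t, t0 ≤ t → HasDerivAt (fun t => s t - s1 t0 * t) (s1 t - s1 t0 * 1) t :=
        fun t ht => (hE.der t (by linarith)).sub ((hasDerivAt_id t).const_mul _)
      apply antitoneOn_of_deriv_nonpos (convex_Ici t0)
      · exact fun t ht => (hd t ht).continuousAt.continuousWithinAt
      · intro t ht
        rw [interior_Ici] at ht
        exact (hd t (le_of_lt ht)).differentiableAt.differentiableWithinAt
      · intro t ht
        rw [interior_Ici] at ht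
        rw [(hd t (le_of_lt ht)).deriv]
        have := hanti t0 t ht0 (le_of_lt ht)
        linarith
    set T := t0 + s t0 / (-s1 t0) with hT
    have hst0 := hE.pos t0 ht0
    have hq : 0 < s t0 / (-s1 t0) := div_pos hst0 (by linarith)
    have hTt : t0 ≤ T := by rw [hT]; linarith
    have h3 := hA (mem_Ici.2 le_rfl) (mem_Ici.2 hTt) hTt
    simp only at h3
    have h4 : s1 t0 * T = s1 t0 * t0 - s t0 := by
      rw [hT]
      have : s1 t0 ≠ 0 := ne_of_lt hneg
      field_simp
      ring
    have h5 := hE.pos T (by linarith)
    linarith
  have hmono : ∀ t, 1 ≤ t → s 1 ≤ s t := by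
    intro t ht
    have hA : MonotoneOn s (Ioi 0) := by
      apply monotoneOn_of_deriv_nonneg (convex_Ioi 0)
      · exact fun t ht => (hE.der t ht).continuousAt.continuousWithinAt
      · intro t ht
        rw [interior_Ioi] at ht
        exact (hE.der t ht).differentiableAt.differentiableWithinAt
      · intro t ht
        rw [interior_Ioi] at ht
        rw [(hE.der t ht).deriv]
        exact hnn t ht
    exact hA (by simp) (lt_of_lt_of_le one_pos ht) ht
  have h6 := F.slim.eventually (gt_mem_nhds (hE.pos 1 one_pos))
  obtain ⟨t, ht1, ht2⟩ := (h6.and (eventually_ge_atTop 1)).exists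
  have := hmono t ht2
  linarith

end Pool.Agent.H54.HM
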