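import Pool.Agent.H99.HM.Targets

namespace Pool.Agent.H54.HM

open MeasureTheory Set Filter Topology Real Pool.Agent.H99.HM

theorem vg_smul (e : ℝ) (g : ℝ → ℝ) : Vg (fun t => e * g t) = fun t => e * Vg g t := by
  funext t
  simp [Vg, intervalIntegral.integral_const_mul]

theorem sf_smul (e : ℝ) (v : ℝ → ℝ) (t : ℝ) : Sf (fun t => e * v t) t = e ^ 2 * Sf v t := by
  unfold Sf
  have : (fun τ => (e * v τ) ^ 2) = fun τ => e ^ 2 * v τ ^ 2 := by funext τ; ring
  rw [this, intervalIntegral.integral_const_mul]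
  ring

theorem adm_smul (e : ℝ) {g : ℝ → ℝ} (h : Adm g) : Adm (fun t => e * g t) := by
  refine ⟨h.mem.const_mul e, ?_⟩
  rw [vg_smul]
  exact h.memV.const_mul e

theorem kin_smul (e : ℝ) (g : ℝ → ℝ) : kin (fun t => e * g t) = e ^ 2 * kin g := by
  unfold kin
  have : (fun τ => (e * g τ) ^ 2) = fun τ => e ^ 2 * g τ ^ 2 := by funext τ; ring
  rw [this, integral_const_mul]
  ring

/-- bounded measurable functions vanishing far out are square integrable -/
theorem memLp_of_bdd {f : ℝ → ℝ} {C R : ℝ} (hm : AEStronglyMeasurable f (volume.restrict (Ioi 0)))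
    (hb : ∀ t, 0 < t → t ≤ R → |f t| ≤ C) (h0 : ∀ t, R < t → f t = 0) :
    MemLp f 2 (volume.restrict (Ioi 0)) := by
  rw [memLp_two_iff_integrable_sq hm]
  have h1 : IntegrableOn (fun t => f t ^ 2) (Ioc 0 R) := by
    have hm1 : AEStronglyMeasurable (fun t => f t ^ 2) (volume.restrict (Ioc 0 R)) :=
      (hm.mono_measure (Measure.restrict_mono Ioc_subset_Ioi_self le_rfl)).pow 2
    refine Integrable.of_bound hm1 (C ^ 2) ?_
    filter_upwards [ae_restrict_mem measurableSet_Ioc] with t ht
    have := hb t ht.1 ht.2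
    rw [Real.norm_eq_abs, abs_pow]
    exact pow_le_pow_left₀ (abs_nonneg _) this 2
  have h2 : IntegrableOn (fun t => f t ^ 2) (Ioi (max 0 R)) := by
    refine (integrableOn_zero : IntegrableOn (fun _ : ℝ => (0 : ℝ)) (Ioi (max 0 R))).congr_fun ?_ measurableSet_Ioi
    intro t ht
    have : R < t := lt_of_le_of_lt (le_max_right _ _) ht
    simp [h0 t this]
  have h3 : IntegrableOn (fun t => f t ^ 2) (Ioc 0 R ∪ Ioi (max 0 R)) := h1.union h2
  refine h3.mono_set ?_
  intro t ht
  have ht' : (0 : ℝ) < t := ht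
  by_cases h : t ≤ R
  · exact Or.inl ⟨ht', h⟩
  · exact Or.inr (max_lt ht' (not_le.1 h))

theorem neg (hA : T_adm) : T_neg := by
  intro x hx
  set L := max 19 x with hL
  have hL19 : 19 ≤ L := le_max_left _ _
  have hLx : x ≤ L := le_max_right _ _
  have hL0 : 0 < L := by linarith
  set g : ℝ → ℝ := fun t => if t ≤ L then 1 / L else if t ≤ 2 * L then -(1 / L) else 0 with hg
  have hgm : Measurable g := by
    refine Measurable.ite measurableSet_Iic measurable_const ?_
    exact Measurable.ite measurableSet_Iic measurable_const measurable_const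
  have hgb : ∀ t, |g t| ≤ 1 / L := by
    intro t
    have : (0 : ℝ) < 1 / L := by positivity
    simp only [hg]
    split_ifs
    · rw [abs_of_pos this]
    · rw [abs_neg, abs_of_pos this]
    · simpa using this.le
  have hgi : ∀ a b : ℝ, IntervalIntegrable g volume a b := by
    intro a b
    rw [intervalIntegrable_iff]
    refine Measure.integrableOn_of_bounded (M := 1 / L) (by simp [uIoc]) hgm.aestronglyMeasurable ?_
    exact Eventually.of_forall fun t => by simpa using hgb t
  have hg2 : ∀ t, 2 * L < t → g t = 0 := by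
    intro t ht
    simp only [hg]
    rw [if_neg (by linarith), if_neg (by linarith)]
  have hv1 : ∀ t, 0 ≤ t → t ≤ L → Vg g t = t / L := by
    intro t ht0 ht
    unfold Vg
    have : ∫ τ in (0 : ℝ)..t, g τ = ∫ τ in (0 : ℝ)..t, (1 / L : ℝ) := by
      apply intervalIntegral.integral_congr
      intro τ hτ
      rw [uIcc_of_le ht0] at hτ
      simp only [hg]
      rw [if_pos (le_trans hτ.2 ht)]
    rw [this]
    simp
    ring
  have hv2 : ∫ τ in L..(2 * L), g τ = -1 := by
    have : ∫ τ in L..(2 * L), g τ = ∫ τ in L..(2 * L), (-(1 / L) : ℝ) := by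
      rw [intervalIntegral.integral_of_le (by linarith), intervalIntegral.integral_of_le (by linarith)]
      apply setIntegral_congr_fun measurableSet_Ioc
      intro τ hτ
      simp only [hg]
      rw [if_neg (not_le.2 hτ.1), if_pos hτ.2]
    rw [this]
    simp
    field_simp
    ring
  have hv3 : ∀ t, 2 * L ≤ t → Vg g t = 0 := by
    intro t ht
    unfold Vg
    rw [← intervalIntegral.integral_add_adjacent_intervals (hgi 0 L) (hgi L t),
      ← intervalIntegral.integral_add_adjacent_intervals (hgi L (2 * L)) (hgi (2 * L) t), hv2]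
    have h1 : ∫ τ in (0 : ℝ)..L, g τ = 1 := by
      have := hv1 L hL0.le le_rfl
      unfold Vg at this
      rw [this]; field_simp
    have h2 : ∫ τ in (2 * L)..t, g τ = 0 := by
      rw [intervalIntegral.integral_of_le ht]
      rw [setIntegral_congr_fun (g := fun _ => (0 : ℝ)) measurableSet_Ioc (fun τ hτ => hg2 τ hτ.1)]
      simp
    rw [h1, h2]; ring
  have hvb : ∀ t, 0 < t → t ≤ 2 * L → |Vg g t| ≤ 2 := by
    intro t ht0 ht
    have h1 : ‖∫ τ in (0 : ℝ)..t, g τ‖ ≤ 1 / L * |t - 0| :=
      intervalIntegral.norm_integral_le_of_norm_le_const (fun τ _ => by simpa using hgb τ)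
    unfold Vg
    rw [← Real.norm_eq_abs]
    refine le_trans h1 ?_
    rw [sub_zero, abs_of_pos ht0]
    rw [one_div, ← div_eq_inv_mul, div_le_iff₀ hL0]
    linarith
  have hvc : Continuous (Vg g) := intervalIntegral.continuous_primitive hgi 0
  have hadm : Adm g := by
    refine ⟨memLp_of_bdd (C := 1 / L) (R := 2 * L) hgm.aestronglyMeasurable (fun t _ _ => hgb t) hg2,
      memLp_of_bdd (C := 2) (R := 2 * L) hvc.aestronglyMeasurable hvb ?_⟩
    intro t ht
    exact hv3 t ht.le
  have F := hA g hadm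
  -- kinetic energy
  have hkin : kin g = 8 * π / L := by
    unfold kin
    have hsp : ∫ t in Ioi (0 : ℝ), g t ^ 2 = ∫ t in Ioc (0 : ℝ) (2 * L), g t ^ 2 := by
      apply setIntegral_eq_of_subset_of_forall_sdiff_eq_zero measurableSet_Ioi Ioc_subset_Ioi_self
      intro t ht
      have : 2 * L < t := by
        by_contra hh
        exact ht.2 ⟨ht.1, not_lt.1 hh⟩
      simp [hg2 t this]
    rw [hsp]
    have : ∫ t in Ioc (0 : ℝ) (2 * L), g t ^ 2 = ∫ t in Ioc (0 : ℝ) (2 * L), (1 / L ^ 2 : ℝ) := by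
      apply setIntegral_congr_fun measurableSet_Ioc
      intro t ht
      simp only [hg]
      split_ifs with h1 h2
      · ring
      · ring
      · exact absurd ht.2 h2
    rw [this]
    simp [Real.volume_real_Ioc_of_le (show (0 : ℝ) ≤ 2 * L by linarith)]
    field_simp
    ring
  -- lower bound for S
  have hS : ∀ t, 2 * L < t → 4 * π * L / 3 ≤ Sf (Vg g) t := by
    intro t ht
    have h1 : Sf (Vg g) L ≤ Sf (Vg g) t := F.Smono (mem_Ici.2 hL0.le) (mem_Ici.2 (by linarith)) (by linarith)
    have h2 : Sf (Vg g) L = 4 * π * L / 3 := by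
      unfold Sf
      have : ∫ τ in (0 : ℝ)..L, Vg g τ ^ 2 = ∫ τ in (0 : ℝ)..L, (1 / L ^ 2) * τ ^ 2 := by
        apply intervalIntegral.integral_congr
        intro τ hτ
        rw [uIcc_of_le hL0.le] at hτ
        simp only
        rw [hv1 τ hτ.1 hτ.2]; ring
      rw [this, intervalIntegral.integral_const_mul, integral_pow]
      norm_num
      field_simp
    linarith
  have hint : 4 * π / 9 ≤ ∫ t in Ioi (0 : ℝ), Sf (Vg g) t / (x + t) ^ 2 := by
    have h1 : ∫ t in Ioi (2 * L), Sf (Vg g) t / (x + t) ^ 2 ≤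
        ∫ t in Ioi (0 : ℝ), Sf (Vg g) t / (x + t) ^ 2 := by
      apply setIntegral_mono_set (F.int1 x hx)
      · filter_upwards [ae_restrict_mem measurableSet_Ioi] with t ht
        have := F.Snn t (le_of_lt ht)
        positivity
      · exact (Ioi_subset_Ioi (by linarith)).eventuallyLE
    -- integral of 1/(x+t)^2
    have hder : ∀ t ∈ Ici (2 * L), HasDerivAt (fun t => -(4 * π * L / 3) / (x + t))
        ((4 * π * L / 3) / (x + t) ^ 2) t := by
      intro t ht
      have ht' : 2 * L ≤ t := ht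
      have hxt : x + t ≠ 0 := by linarith
      have := (hasDerivAt_const t (-(4 * π * L / 3))).div ((hasDerivAt_id t).const_add x) hxt
      refine this.congr_deriv ?_
      simp
    have hlim : Tendsto (fun t => -(4 * π * L / 3) / (x + t)) atTop (𝓝 0) := by
      apply Tendsto.div_atTop tendsto_const_nhds
      exact tendsto_atTop_add_const_left _ _ tendsto_id
    have hnn : ∀ t ∈ Ioi (2 * L), 0 ≤ (4 * π * L / 3) / (x + t) ^ 2 := fun t _ => by positivity
    have hI := integral_Ioi_of_hasDerivAt_of_nonneg' hder hnn hlim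
    have hIi := integrableOn_Ioi_deriv_of_nonneg' hder hnn hlim
    have h2 : ∫ t in Ioi (2 * L), (4 * π * L / 3) / (x + t) ^ 2 ≤
        ∫ t in Ioi (2 * L), Sf (Vg g) t / (x + t) ^ 2 := by
      apply setIntegral_mono_on hIi ((F.int1 x hx).mono_set (Ioi_subset_Ioi (by linarith)))
        measurableSet_Ioi
      intro t ht
      have := hS t ht
      exact div_le_div_of_nonneg_right this (by positivity)
    rw [hI] at h2
    have h3 : 4 * π / 9 ≤ 0 - -(4 * π * L / 3) / (x + 2 * L) := by
      have hp : 0 < x + 2 * L := by linarith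
      rw [zero_sub, neg_div, neg_neg, le_div_iff₀ hp]
      have := Real.pi_pos
      nlinarith
    linarith
  -- the coefficient
  set A := kin g - ∫ t in Ioi (0 : ℝ), Sf (Vg g) t / (x + t) ^ 2 with hAdef
  set B := ∫ t in Ioi (0 : ℝ), Sf (Vg g) t ^ 2 / (x + t) ^ 2 with hBdef
  have hA0 : A < 0 := by
    have hp := Real.pi_pos
    have : 8 * π / L < 4 * π / 9 := by
      rw [div_lt_div_iff₀ hL0 (by norm_num)]
      nlinarith
    rw [hAdef, hkin]; linarith
  have hB0 : 0 ≤ B := by
    apply setIntegral_nonneg measurableSet_Ioi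
    intro t _
    positivity
  set e := Real.sqrt (-A / (B + 1)) with he
  have hδ : e ^ 2 = -A / (B + 1) := Real.sq_sqrt (div_nonneg (by linarith) (by linarith))
  refine ⟨fun t => e * g t, adm_smul e hadm, ?_⟩
  have hJ : J x 0 (fun t => e * g t) = e ^ 2 * A + e ^ 4 * B / 2 := by
    unfold J att
    rw [kin_smul, vg_smul]
    have h1 : ∀ t, (Sf (fun t => e * Vg g t) t - Sf (fun t => e * Vg g t) t ^ 2 / 2) / (x + t) ^ 2 =
        e ^ 2 * (Sf (Vg g) t / (x + t) ^ 2) - e ^ 4 / 2 * (Sf (Vg g) t ^ 2 / (x + t) ^ 2) := by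
      intro t
      rw [sf_smul]; ring
    simp_rw [h1]
    rw [integral_sub ((F.int1 x hx).const_mul _) ((F.int2 x hx).const_mul _),
      integral_const_mul, integral_const_mul]
    rw [hAdef, hBdef]
    ring
  rw [hJ]
  have h4 : e ^ 4 = (e ^ 2) ^ 2 := by ring
  rw [h4, hδ]
  have hB1 : 0 < B + 1 := by linarith
  have h5 : -A / (B + 1) * A + (-A / (B + 1)) ^ 2 * B / 2 =
      -(A ^ 2 * (B + 2)) / (2 * (B + 1) ^ 2) := by
    field_simp
    ring
  rw [h5]
  apply div_neg_of_neg_of_pos
  · have : 0 < A ^ 2 := sq_pos_iff.2 hA0.ne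
    nlinarith
  · positivity

end Pool.Agent.H54.HM
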