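import Pool.Agent.H99.HM.Targets

namespace Pool.Agent.H54.HM

open MeasureTheory Set Filter Topology Real Pool.Agent.H99.HM

theorem ode : T_ode := by
  intro c y y1 r0 hc hy hy1 hr0 h0 h1 r hr
  set a := min r r0 with ha
  set b := max r r0 with hb
  have ha0 : 0 < a := lt_min hr hr0
  have hsub : Icc a b ⊆ Ioi 0 := fun x hx => lt_of_lt_of_le ha0 hx.1
  obtain ⟨K, hK⟩ := isCompact_Icc.exists_bound_of_continuousOn (hc.mono hsub)
  have hKnn : 0 ≤ K := le_trans (norm_nonneg _) (hK a ⟨le_rfl, min_le_max⟩)
  set L := 1 + K with hL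
  -- energy
  set E : ℝ → ℝ := fun t => y t ^ 2 + y1 t ^ 2 with hE
  have hEd : ∀ t, 0 < t → HasDerivAt E (2 * y t * y1 t + 2 * y1 t * (c t * y t)) t := by
    intro t ht
    have h2 := ((hy t ht).pow 2).add ((hy1 t ht).pow 2)
    refine h2.congr_deriv ?_
    simp
  have hEb : ∀ t ∈ Icc a b, |2 * y t * y1 t + 2 * y1 t * (c t * y t)| ≤ L * E t := by
    intro t ht
    have hk : |c t| ≤ K := hK t ht
    have e1 : |2 * y t * y1 t + 2 * y1 t * (c t * y t)| = |1 + c t| * |2 * y t * y1 t| := by
      rw [← abs_mul]; congr 1; ring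
    rw [e1]
    have e2 : |1 + c t| ≤ L := by
      calc |1 + c t| ≤ |(1 : ℝ)| + |c t| := abs_add_le _ _
        _ ≤ 1 + K := by rw [abs_one]; linarith
    have e3 : |2 * y t * y1 t| ≤ E t := by
      rw [abs_le]
      constructor <;> simp only [hE] <;> nlinarith [sq_nonneg (y t + y1 t), sq_nonneg (y t - y1 t)]
    exact mul_le_mul e2 e3 (abs_nonneg _) (by positivity)
  have hE0 : E r0 = 0 := by simp [hE, h0, h1]
  have hEnn : ∀ t, 0 ≤ E t := fun t => by simp only [hE]; positivity
  have hEr : E r = 0 := by
    rcases le_total r0 r with hle | hle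
    · -- to the right
      have hA : AntitoneOn (fun t => E t * Real.exp (-(L * t))) (Icc r0 r) := by
        have hder : ∀ t ∈ Icc r0 r, HasDerivAt (fun t => E t * Real.exp (-(L * t)))
            ((2 * y t * y1 t + 2 * y1 t * (c t * y t)) * Real.exp (-(L * t)) +
              E t * (Real.exp (-(L * t)) * (-(L * 1)))) t := by
          intro t ht
          exact (hEd t (lt_of_lt_of_le hr0 ht.1)).mul ((((hasDerivAt_id t).const_mul L).neg).exp)
        apply antitoneOn_of_deriv_nonpos (convex_Icc _ _)
        · exact fun t ht => (hder t ht).continuousAt.continuousWithinAt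
        · intro t ht
          exact (hder t (interior_subset ht)).differentiableAt.differentiableWithinAt
        · intro t ht
          have ht' : t ∈ Icc r0 r := interior_subset ht
          rw [(hder t ht').deriv]
          have hb' := hEb t ⟨le_trans (min_le_right _ _) ht'.1, le_trans ht'.2 (le_max_left _ _)⟩
          have := (abs_le.1 hb').2
          have hp := Real.exp_pos (-(L * t))
          nlinarith
      have := hA ⟨le_rfl, hle⟩ ⟨hle, le_rfl⟩ hle
      simp only [hE0, zero_mul] at this
      have hp := Real.exp_pos (-(L * r))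
      have h3 := hEnn r
      by_contra hne
      have : 0 < E r := lt_of_le_of_ne h3 (Ne.symm hne)
      nlinarith [mul_pos this hp]
    · have hA : MonotoneOn (fun t => E t * Real.exp (L * t)) (Icc r r0) := by
        have hder : ∀ t ∈ Icc r r0, HasDerivAt (fun t => E t * Real.exp (L * t))
            ((2 * y t * y1 t + 2 * y1 t * (c t * y t)) * Real.exp (L * t) +
              E t * (Real.exp (L * t) * (L * 1))) t := by
          intro t ht
          exact (hEd t (lt_of_lt_of_le hr ht.1)).mul (((hasDerivAt_id t).const_mul L).exp)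
        apply monotoneOn_of_deriv_nonneg (convex_Icc _ _)
        · exact fun t ht => (hder t ht).continuousAt.continuousWithinAt
        · intro t ht
          exact (hder t (interior_subset ht)).differentiableAt.differentiableWithinAt
        · intro t ht
          have ht' : t ∈ Icc r r0 := interior_subset ht
          rw [(hder t ht').deriv]
          have hb' := hEb t ⟨le_trans (min_le_left _ _) ht'.1, le_trans ht'.2 (le_max_right _ _)⟩
          have := (abs_le.1 hb').1
          have hp := Real.exp_pos (L * t)
          nlinarith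
      have := hA ⟨le_rfl, hle⟩ ⟨hle, le_rfl⟩ hle
      simp only [hE0, zero_mul] at this
      have hp := Real.exp_pos (L * r)
      have h3 := hEnn r
      by_contra hne
      have : 0 < E r := lt_of_le_of_ne h3 (Ne.symm hne)
      nlinarith [mul_pos this hp]
  have h4 : y r ^ 2 + y1 r ^ 2 = 0 := hEr
  constructor
  · nlinarith [sq_nonneg (y r), sq_nonneg (y1 r), pow_eq_zero_iff (two_ne_zero) |>.1 (show y r ^ 2 = 0 by nlinarith [sq_nonneg (y r), sq_nonneg (y1 r)])]
  · exact pow_eq_zero_iff (two_ne_zero) |>.1 (show y1 r ^ 2 = 0 by nlinarith [sq_nonneg (y r), sq_nonneg (y1 r)])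

end Pool.Agent.H54.HM
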