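import Pool.Agent.H54.HM.Rad
import Pool.Agent.H54.HM.Dbr

/-! Module RADC: from the weak radial equation to a classical solution. -/

namespace Pool.Agent.H54.HM

open MeasureTheory Set Filter Topology Real
open Pool.Agent.H99.HM Pool.Agent.H36.HM
open scoped ContDiff

theorem phi_gen {σ : ℝ → ℝ} (hi : IntegrableOn (fun r => σ r ^ 2) (Ioi 0)) :
    ContinuousOn (phi 0 σ) (Ioi 0) ∧ ∀ t, 0 < t → |phi 0 σ t| ≤ (1 + Mf σ) / t := by
  have hp := Real.pi_pos
  have hM : 0 ≤ Mf σ := by
    unfold Mf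
    have : 0 ≤ ∫ t in Ioi (0 : ℝ), σ t ^ 2 := setIntegral_nonneg measurableSet_Ioi fun t _ => by positivity
    positivity
  have hS : ∀ t, 0 ≤ t → Sf σ t = 4 * π * ∫ τ in Ioc 0 t, σ τ ^ 2 := by
    intro t ht
    unfold Sf
    rw [intervalIntegral.integral_of_le ht]
  have hSnn : ∀ t, 0 ≤ t → 0 ≤ Sf σ t := by
    intro t ht
    rw [hS t ht]
    have : 0 ≤ ∫ τ in Ioc 0 t, σ τ ^ 2 := setIntegral_nonneg measurableSet_Ioc fun t _ => by positivity
    positivity
  have hSle : ∀ t, 0 ≤ t → Sf σ t ≤ Mf σ := by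
    intro t ht
    rw [hS t ht]
    unfold Mf
    apply mul_le_mul_of_nonneg_left _ (by positivity)
    apply setIntegral_mono_set hi
    · exact Eventually.of_forall fun t => by positivity
    · exact Ioc_subset_Ioi_self.eventuallyLE
  have hScont : ContinuousOn (Sf σ) (Ioi 0) := by
    intro t ht
    have ht0 : 0 < t := ht
    have h1 : ContinuousOn (fun t => ∫ τ in (0 : ℝ)..t, σ τ ^ 2) (uIcc 0 (t + 1)) := by
      refine intervalIntegral.continuousOn_primitive_interval' ?_ left_mem_uIcc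
      rw [intervalIntegrable_iff_integrableOn_Ioc_of_le (by linarith)]
      exact hi.mono_set Ioc_subset_Ioi_self
    have h2 : ContinuousAt (fun t => ∫ τ in (0 : ℝ)..t, σ τ ^ 2) t := by
      refine h1.continuousAt ?_
      rw [uIcc_of_le (by linarith)]
      exact Icc_mem_nhds ht0 (by linarith)
    exact (continuousAt_const.mul h2).continuousWithinAt
  have hfc : ContinuousOn (fun τ => (1 - Sf σ τ) / (0 + τ) ^ 2) (Ioi 0) := by
    apply ContinuousOn.div (continuousOn_const.sub hScont)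
    · exact (continuousOn_const.add continuousOn_id).pow 2
    · intro τ hτ
      have hτ' : (0 : ℝ) < τ := hτ
      positivity
  have hfb : ∀ τ, 0 < τ → ‖(1 - Sf σ τ) / (0 + τ) ^ 2‖ ≤ (1 + Mf σ) / τ ^ 2 := by
    intro τ hτ
    rw [norm_div, zero_add, Real.norm_eq_abs, Real.norm_eq_abs, abs_of_pos (show (0 : ℝ) < τ ^ 2 by positivity)]
    apply div_le_div_of_nonneg_right _ (by positivity)
    rw [abs_le]
    have h1 := hSnn τ hτ.le
    have h2 := hSle τ hτ.le
    constructor <;> linarith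
  have hint : ∀ t, 0 < t → IntegrableOn (fun τ => (1 - Sf σ τ) / (0 + τ) ^ 2) (Ioi t) := by
    intro t ht
    refine Integrable.mono' (integrable_inv_sq ht (1 + Mf σ) (by linarith)).1 ?_ ?_
    · exact (hfc.mono (Ioi_subset_Ioi ht.le)).aestronglyMeasurable measurableSet_Ioi
    · filter_upwards [ae_restrict_mem measurableSet_Ioi] with τ hτ
      exact hfb τ (lt_trans ht hτ)
  constructor
  · intro t ht
    have ht : 0 < t := ht
    set a := t / 2 with ha
    have ha0 : 0 < a := by positivity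
    have hat : a < t := by rw [ha]; linarith
    have h1 : IntervalIntegrable (fun τ => (1 - Sf σ τ) / (0 + τ) ^ 2) volume a t := by
      rw [intervalIntegrable_iff_integrableOn_Ioc_of_le hat.le]
      exact (hint a ha0).mono_set Ioc_subset_Ioi_self
    have h2 : StronglyMeasurableAtFilter (fun τ => (1 - Sf σ τ) / (0 + τ) ^ 2) (𝓝 t) volume :=
      ContinuousOn.stronglyMeasurableAtFilter isOpen_Ioi hfc t ht
    have h3 := intervalIntegral.integral_hasDerivAt_right h1 h2 (hfc.continuousAt (Ioi_mem_nhds ht))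
    have h4 : phi 0 σ =ᶠ[𝓝 t] fun u => (∫ τ in Ioi a, (1 - Sf σ τ) / (0 + τ) ^ 2) -
        ∫ τ in a..u, (1 - Sf σ τ) / (0 + τ) ^ 2 := by
      filter_upwards [Ioi_mem_nhds hat] with u hu
      have hu' : a < u := hu
      unfold phi
      rw [intervalIntegral.integral_of_le hu'.le]
      have h5 : Ioi a = Ioc a u ∪ Ioi u := (Ioc_union_Ioi_eq_Ioi hu'.le).symm
      have h6 := setIntegral_union (Ioc_disjoint_Ioi le_rfl : Disjoint (Ioc a u) (Ioi u)) measurableSet_Ioi
        ((hint a ha0).mono_set (Ioc_subset_Ioi_self : Ioc a u ⊆ Ioi a)) ((hint a ha0).mono_set (Ioi_subset_Ioi hu'.le))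
      rw [h5, h6]
      ring
    exact (HasDerivAt.congr_of_eventuallyEq (h3.const_sub _) h4).continuousAt.continuousWithinAt
  · intro t ht
    unfold phi
    rw [← Real.norm_eq_abs]
    refine le_trans (norm_integral_le_integral_norm _) ?_
    have h1 := integrable_inv_sq ht (1 + Mf σ) (by linarith)
    rw [← h1.2]
    refine setIntegral_mono_on (hint t ht).norm h1.1 measurableSet_Ioi ?_
    intro τ hτ
    exact hfb τ (lt_trans ht hτ)

/-- derivatives of `r ↦ r q(r²)` -/
theorem der_F {q : ℝ → ℝ} (hq : ContDiff ℝ ∞ q) :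
    (∀ r, HasDerivAt (fun r => r * q (r ^ 2)) (q (r ^ 2) + 2 * r ^ 2 * deriv q (r ^ 2)) r) ∧
    (∀ r, HasDerivAt (fun r => q (r ^ 2) + 2 * r ^ 2 * deriv q (r ^ 2))
      (4 * r ^ 3 * deriv (deriv q) (r ^ 2) + 6 * r * deriv q (r ^ 2)) r) := by
  have h1 : Differentiable ℝ q := hq.differentiable (by simp)
  have hq2 : ContDiff ℝ ∞ (deriv q) := (contDiff_infty_iff_deriv.1 hq).2
  have h2 : Differentiable ℝ (deriv q) := hq2.differentiable (by simp)
  have hsq : ∀ r : ℝ, HasDerivAt (fun r : ℝ => r ^ 2) (2 * r) r := fun r => by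
    simpa using hasDerivAt_pow 2 r
  have c1 : ∀ r, HasDerivAt (fun r => q (r ^ 2)) (deriv q (r ^ 2) * (2 * r)) r := fun r =>
    HasDerivAt.comp (h₂ := q) r (h1 (r ^ 2)).hasDerivAt (hsq r)
  have c2 : ∀ r, HasDerivAt (fun r => deriv q (r ^ 2)) (deriv (deriv q) (r ^ 2) * (2 * r)) r :=
    fun r => HasDerivAt.comp (h₂ := deriv q) r (h2 (r ^ 2)).hasDerivAt (hsq r)
  refine ⟨fun r => ?_, fun r => ?_⟩
  · have := (hasDerivAt_id r).mul (c1 r)
    refine this.congr_deriv ?_
    simp only [id]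
    ring
  · have := (c1 r).add (((hsq r).const_mul 2).mul (c2 r))
    refine this.congr_deriv ?_
    ring

/-- the test function `q` associated with `η` -/
theorem exists_q {η : ℝ → ℝ} (p1 : ContDiff ℝ ∞ η) (p2 : HasCompactSupport η)
    (p3 : tsupport η ⊆ Ioi 0) : ∃ q : ℝ → ℝ, ContDiff ℝ ∞ q ∧ HasCompactSupport q ∧
      ∀ r, 0 < r → r * q (r ^ 2) = η r := by
  obtain ⟨a, b, ha, hab, h1, h2⟩ := supp_bounds p2 p3
  refine ⟨fun ρ => η (√ρ) / √ρ, ?_, ?_, ?_⟩
  · rw [contDiff_iff_contDiffAt]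
    intro ρ
    rcases lt_or_ge 0 ρ with h | h
    · have hs : ContDiffAt ℝ ∞ (fun ρ => √ρ) ρ := contDiffAt_id.sqrt (ne_of_gt h)
      exact (p1.contDiffAt.comp ρ hs).div hs (Real.sqrt_pos.2 h).ne'
    · have : (fun ρ => η (√ρ) / √ρ) =ᶠ[𝓝 ρ] fun _ => 0 := by
        have h3 : Iio (a ^ 2) ∈ 𝓝 ρ := Iio_mem_nhds (lt_of_le_of_lt h (by positivity))
        filter_upwards [h3] with t ht
        have h4 : √t ≤ a := by
          rw [Real.sqrt_le_left ha.le]
          exact (le_of_lt ht)
        rw [h1 _ h4, zero_div]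
      exact contDiffAt_const.congr_of_eventuallyEq this
  · refine HasCompactSupport.intro (isCompact_Icc (a := 0) (b := b ^ 2)) (fun t ht => ?_)
    rw [mem_Icc, not_and_or, not_le, not_le] at ht
    rcases ht with h | h
    · rw [Real.sqrt_eq_zero'.2 h.le, div_zero]
    · have h4 : b ≤ √t := Real.le_sqrt_of_sq_le h.le
      rw [h2 _ h4, zero_div]
  · intro r hr
    simp only
    rw [Real.sqrt_sq hr.le]
    field_simp

theorem radc (hD : T_dbr) : T_radc := by
  intro lam f hf hW
  have hi : IntegrableOn (fun r => rf f r ^ 2) (Ioi 0) := by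
    have := hf.norm.integrable_sq
    exact this
  obtain ⟨cphi, bphi⟩ := phi_gen hi
  set M := Mf (rf f) with hM
  have hM0 : 0 ≤ M := by
    have hp := Real.pi_pos
    rw [hM]
    unfold Mf
    have : 0 ≤ ∫ t in Ioi (0 : ℝ), rf f t ^ 2 :=
      setIntegral_nonneg measurableSet_Ioi fun t _ => by positivity
    positivity
  set c : ℝ → ℝ := fun r => phi 0 (rf f) r + lam with hc
  have cc : ContinuousOn c (Ioi 0) := cphi.add continuousOn_const
  obtain ⟨z, z1, hz, dz, dz1⟩ := hD (fun r => (r : ℂ) * f r) c cc hf (by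
    intro η p1 p2 p3
    obtain ⟨q, q1, q2, q3⟩ := exists_q p1 p2 p3
    obtain ⟨d1, d2⟩ := der_F q1
    rw [← hW q q1 q2]
    refine setIntegral_congr_fun measurableSet_Ioi (fun r hr => ?_)
    have hr0 : 0 < r := hr
    have e1 : ∀ t, 0 < t → deriv η t = q (t ^ 2) + 2 * t ^ 2 * deriv q (t ^ 2) := by
      intro t ht
      have : η =ᶠ[𝓝 t] fun r => r * q (r ^ 2) := by
        filter_upwards [Ioi_mem_nhds ht] with u hu
        exact (q3 u hu).symm
      rw [this.deriv_eq, (d1 t).deriv]
    have e2 : deriv (deriv η) r = 4 * r ^ 3 * deriv (deriv q) (r ^ 2) + 6 * r * deriv q (r ^ 2) := by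
      have : deriv η =ᶠ[𝓝 r] fun t => q (t ^ 2) + 2 * t ^ 2 * deriv q (t ^ 2) := by
        filter_upwards [Ioi_mem_nhds hr0] with u hu
        exact e1 u hu
      rw [this.deriv_eq, (d2 r).deriv]
    rw [e2, q3 r hr0])
  have cz : ContinuousOn z (Ioi 0) := fun t ht => (dz t ht).continuousAt.continuousWithinAt
  have cz1 : ContinuousOn z1 (Ioi 0) := fun t ht => (dz1 t ht).continuousAt.continuousWithinAt
  have hzL : MemLp z 2 (volume.restrict (Ioi 0)) := hf.ae_eq (by
    filter_upwards [hz] with r hr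
    exact hr.symm)
  -- the cut-off
  let B : ContDiffBump (0 : ℝ) := ⟨1, 2, one_pos, one_lt_two⟩
  obtain ⟨q, hq⟩ : ∃ q : ℝ → ℝ, q = fun t => B t := ⟨_, rfl⟩
  have q1 : ContDiff ℝ ∞ q := by rw [hq]; exact B.contDiff
  have q2 : HasCompactSupport q := by rw [hq]; exact B.hasCompactSupport
  have q3 : ∀ t, |t| ≤ 1 → q t = 1 := by
    intro t ht
    rw [hq]
    refine B.one_of_mem_closedBall ?_
    rw [Metric.mem_closedBall, Real.dist_eq, sub_zero]
    exact ht
  have q4 : ∀ t, 2 ≤ |t| → q t = 0 := by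
    intro t ht
    rw [hq]
    refine B.zero_of_le_dist ?_
    rw [Real.dist_eq, sub_zero]
    exact ht
  have q5 : ∀ t, |q t| ≤ 1 := by
    intro t
    rw [hq]
    simp only
    rw [abs_of_nonneg B.nonneg]
    exact B.le_one
  obtain ⟨d1, d2⟩ := der_F q1
  set F : ℝ → ℝ := fun r => r * q (r ^ 2) with hF
  set F1 : ℝ → ℝ := fun r => q (r ^ 2) + 2 * r ^ 2 * deriv q (r ^ 2) with hF1
  set F2 : ℝ → ℝ := fun r => 4 * r ^ 3 * deriv (deriv q) (r ^ 2) + 6 * r * deriv q (r ^ 2) with hF2
  have q6 : Continuous (deriv q) := q1.continuous_deriv (by simp)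
  have q7 : Continuous (deriv (deriv q)) :=
    ((contDiff_infty_iff_deriv.1 q1).2).continuous_deriv (by simp)
  have cF2 : Continuous F2 := by
    rw [hF2]
    have := continuous_pow (M := ℝ) 2
    exact ((continuous_const.mul (continuous_pow 3)).mul (q7.comp this)).add
      ((continuous_const.mul continuous_id).mul (q6.comp this))
  have cF : Continuous F := continuous_iff_continuousAt.2 fun t => (d1 t).continuousAt
  set W : ℝ → ℂ := fun r => (F1 r : ℂ) * z r - (F r : ℂ) * z1 r with hWd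
  set g : ℝ → ℂ := fun r => ((F2 r + c r * F r : ℝ) : ℂ) * z r with hg
  have dW : ∀ r, 0 < r → HasDerivAt W (g r) r := by
    intro r hr
    have h1 := ((d2 r).ofReal_comp.mul (dz r hr)).sub ((d1 r).ofReal_comp.mul (dz1 r hr))
    refine h1.congr_deriv ?_
    simp only [hg, hF2, hF1, hF]
    push_cast
    ring
  have zero2 : ∀ r, 2 ≤ r → F r = 0 ∧ F1 r = 0 ∧ F2 r = 0 := by
    intro r hr
    have h2 : ∀ t : ℝ, 2 < t → q t = 0 := fun t ht => q4 t (by
      rw [abs_of_pos (by linarith)]; exact ht.le)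
    have h3 : ∀ t : ℝ, 2 < t → deriv q t = 0 := by
      intro t ht
      have : q =ᶠ[𝓝 t] fun _ => 0 := by
        filter_upwards [Ioi_mem_nhds ht] with u hu
        exact h2 u hu
      rw [this.deriv_eq, deriv_const]
    have h4 : ∀ t : ℝ, 2 < t → deriv (deriv q) t = 0 := by
      intro t ht
      have : deriv q =ᶠ[𝓝 t] fun _ => 0 := by
        filter_upwards [Ioi_mem_nhds ht] with u hu
        exact h3 u hu
      rw [this.deriv_eq, deriv_const]
    have h5 : 2 < r ^ 2 := by nlinarith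
    refine ⟨?_, ?_, ?_⟩
    · simp only [hF]; rw [h2 _ h5, mul_zero]
    · simp only [hF1]; rw [h2 _ h5, h3 _ h5]; ring
    · simp only [hF2]; rw [h4 _ h5, h3 _ h5]; ring
  have one1 : ∀ r, 0 < r → r < 1 → F r = r ∧ F1 r = 1 := by
    intro r hr hr1
    have h5 : r ^ 2 < 1 := by nlinarith
    have h6 : |r ^ 2| ≤ 1 := by rw [abs_of_nonneg (by positivity)]; exact h5.le
    have h7 : deriv q (r ^ 2) = 0 := by
      have : q =ᶠ[𝓝 (r ^ 2)] fun _ => 1 := by
        have h8 : Ioo (-1 : ℝ) 1 ∈ 𝓝 (r ^ 2) := Ioo_mem_nhds (by nlinarith) h5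
        filter_upwards [h8] with u hu
        exact q3 u (abs_le.2 ⟨hu.1.le, hu.2.le⟩)
      rw [this.deriv_eq, deriv_const]
    refine ⟨?_, ?_⟩
    · simp only [hF]; rw [q3 _ h6, mul_one]
    · simp only [hF1]; rw [q3 _ h6, h7]; ring
  -- integrability of `g`
  obtain ⟨K, hK⟩ : ∃ K, ∀ r ∈ Icc (0 : ℝ) 2, |F2 r| ≤ K :=
    (isCompact_Icc.exists_bound_of_continuousOn cF2.continuousOn)
  have cg : ContinuousOn g (Ioi 0) := by
    refine ContinuousOn.mul ?_ cz
    exact Complex.continuous_ofReal.comp_continuousOn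
      (cF2.continuousOn.add (cc.mul cF.continuousOn))
  have gb : ∀ r, 0 < r → ‖g r‖ ≤ (K + (1 + M) + 2 * |lam|) * ‖z r‖ := by
    intro r hr
    simp only [hg]
    rw [norm_mul, Complex.norm_real, Real.norm_eq_abs]
    refine mul_le_mul_of_nonneg_right ?_ (norm_nonneg _)
    have hKnn : 0 ≤ K := (abs_nonneg _).trans (hK 0 ⟨le_rfl, by norm_num⟩)
    rcases le_or_gt 2 r with h | h
    · obtain ⟨e1, e2, e3⟩ := zero2 r h
      rw [e1, e3, mul_zero, add_zero, abs_zero]
      positivity
    · have h1 : |F2 r| ≤ K := hK r ⟨hr.le, h.le⟩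
      have h2 : |c r| ≤ (1 + M) / r + |lam| := (abs_add_le _ _).trans
        (add_le_add (bphi r hr) le_rfl)
      have h3 : |F r| ≤ r := by
        simp only [hF]
        rw [abs_mul, abs_of_pos hr]
        have := q5 (r ^ 2)
        nlinarith
      have h4 : |c r * F r| ≤ (1 + M) + 2 * |lam| := by
        rw [abs_mul]
        calc |c r| * |F r| ≤ ((1 + M) / r + |lam|) * r := by
              refine mul_le_mul h2 h3 (abs_nonneg _) (by positivity)
          _ = (1 + M) + |lam| * r := by field_simp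
          _ ≤ _ := by nlinarith [abs_nonneg lam]
      calc |F2 r + c r * F r| ≤ |F2 r| + |c r * F r| := abs_add_le _ _
        _ ≤ _ := by linarith
  have gi : IntegrableOn g (Ioi 0) := by
    have h1 : IntegrableOn g (Ioc 0 2) := by
      have h2 : IntegrableOn z (Ioc 0 2) :=
        (hzL.mono_measure (Measure.restrict_mono Ioc_subset_Ioi_self le_rfl)).integrable
          one_le_two
      refine Integrable.mono' (h2.norm.const_mul (K + (1 + M) + 2 * |lam|)) ?_ ?_
      · exact (cg.mono Ioc_subset_Ioi_self).aestronglyMeasurable measurableSet_Ioc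
      · filter_upwards [ae_restrict_mem measurableSet_Ioc] with r hr
        exact gb r hr.1
    have h2 : IntegrableOn g (Ioi 2) := by
      have : EqOn (fun _ => (0 : ℂ)) g (Ioi 2) := by
        intro r hr
        obtain ⟨e1, e2, e3⟩ := zero2 r (le_of_lt hr)
        simp only [hg]
        rw [e1, e3]
        simp
      exact (integrableOn_zero).congr_fun this measurableSet_Ioi
    have h3 : Ioi (0 : ℝ) = Ioc 0 2 ∪ Ioi 2 := (Ioc_union_Ioi_eq_Ioi (by norm_num)).symm
    rw [h3]
    exact h1.union h2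
  -- total integral
  have g0 : ∫ r in Ioi (0 : ℝ), g r = 0 := by
    rw [← hW q q1 q2]
    refine setIntegral_congr_ae measurableSet_Ioi ?_
    have := hz
    rw [ae_restrict_iff' measurableSet_Ioi] at this
    filter_upwards [this] with r hr hr0
    simp only [hg, hF2, hF, hc]
    rw [hr hr0]
  have gI2 : ∫ r in (0 : ℝ)..2, g r = 0 := by
    rw [intervalIntegral.integral_of_le (by norm_num), ← g0]
    refine (setIntegral_eq_of_subset_of_forall_sdiff_eq_zero measurableSet_Ioi
      Ioc_subset_Ioi_self ?_).symm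
    intro t ht
    have h3 := ht.2
    rw [mem_Ioc, not_and_or, not_lt, not_le] at h3
    rcases h3 with h | h
    · exact absurd ht.1 (not_lt.2 h)
    · obtain ⟨e1, e2, e3⟩ := zero2 t h.le
      simp only [hg]
      rw [e1, e3]
      simp
  have gii : IntervalIntegrable g volume 0 2 := by
    rw [intervalIntegrable_iff_integrableOn_Ioc_of_le (by norm_num)]
    exact gi.mono_set Ioc_subset_Ioi_self
  have WI : ∀ r, 0 < r → r < 1 → W r = ∫ t in (0 : ℝ)..r, g t := by
    intro r hr hr1
    have hsub : uIcc r 2 ⊆ Ioi 0 := by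
      rw [uIcc_of_le (by linarith)]
      exact fun t ht => hr.trans_le ht.1
    have h1 : ∫ t in r..2, g t = W 2 - W r :=
      intervalIntegral.integral_eq_sub_of_hasDerivAt (fun t ht => dW t (hsub ht))
        ((cg.mono hsub).intervalIntegrable)
    have h2 : W 2 = 0 := by
      obtain ⟨e1, e2, e3⟩ := zero2 2 le_rfl
      simp only [hWd]
      rw [e1, e2]
      simp
    have h3 : (∫ t in (0 : ℝ)..r, g t) + ∫ t in r..2, g t = ∫ t in (0 : ℝ)..2, g t := by
      refine intervalIntegral.integral_add_adjacent_intervals ?_ ?_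
      · rw [intervalIntegrable_iff_integrableOn_Ioc_of_le hr.le]
        exact gi.mono_set Ioc_subset_Ioi_self
      · exact (cg.mono hsub).intervalIntegrable
    rw [h1, h2, gI2] at h3
    linear_combination -h3
  have Wlim : Tendsto W (𝓝[>] 0) (𝓝 0) := by
    have h1 : ContinuousOn (fun t => ∫ τ in (0 : ℝ)..t, g τ) (uIcc 0 2) :=
      intervalIntegral.continuousOn_primitive_interval' gii left_mem_uIcc
    have h2 : ContinuousWithinAt (fun t => ∫ τ in (0 : ℝ)..t, g τ) (uIcc 0 2) 0 :=
      h1 0 left_mem_uIcc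
    have h3 : Tendsto (fun t => ∫ τ in (0 : ℝ)..t, g τ) (𝓝[uIcc 0 2] 0) (𝓝 0) := by
      have := h2.tendsto
      rwa [intervalIntegral.integral_same] at this
    have h4 : 𝓝[>] (0 : ℝ) ≤ 𝓝[uIcc 0 2] 0 := by
      rw [uIcc_of_le (by norm_num)]
      refine nhdsWithin_le_of_mem ?_
      exact Icc_mem_nhdsGT (by norm_num)
    refine (h3.mono_left h4).congr' ?_
    filter_upwards [Ioo_mem_nhdsGT (show (0 : ℝ) < 1 by norm_num)] with r hr
    exact (WI r hr.1 hr.2).symm
  have Wz : ∀ r, 0 < r → r < 1 → W r = z r - r * z1 r := by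
    intro r hr hr1
    obtain ⟨e1, e2⟩ := one1 r hr hr1
    simp only [hWd]
    rw [e1, e2]
    simp
  -- `z → 0`
  have zlim : Tendsto z (𝓝[>] 0) (𝓝 0) := by
    rw [Metric.tendsto_nhds]
    intro ε hε
    have h1 := (Metric.tendsto_nhds.1 Wlim) (ε / 2) (by positivity)
    rw [eventually_nhdsWithin_iff, Metric.eventually_nhds_iff] at h1
    obtain ⟨d, hd, h1⟩ := h1
    set r1 : ℝ := min (d / 2) (1 / 2) with hr1
    have hr10 : 0 < r1 := lt_min (by positivity) (by norm_num)
    have hr1d : r1 < d := (min_le_left _ _).trans_lt (by linarith)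
    have hr11 : r1 < 1 := (min_le_right _ _).trans_lt (by norm_num)
    have hWb : ∀ t, 0 < t → t ≤ r1 → ‖W t‖ ≤ ε / 2 := by
      intro t ht ht1
      have := h1 (y := t) (by rw [Real.dist_eq, sub_zero, abs_of_pos ht]; linarith) ht
      rw [dist_zero_right] at this
      exact this.le
    have key : ∀ r, 0 < r → r ≤ r1 → ‖z r‖ ≤ ε / 2 + r * (‖z r1‖ / r1) := by
      intro r hr hrr
      have hne : ∀ t ∈ Icc r r1, (t : ℂ) ≠ 0 := by
        intro t ht
        have : 0 < t := hr.trans_le ht.1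
        exact_mod_cast this.ne'
      have dq : ∀ t ∈ Icc r r1, HasDerivAt (fun t : ℝ => z t / (t : ℂ) - z r / (r : ℂ))
          (-(W t) / (t : ℂ) ^ 2) t := by
        intro t ht
        have ht0 : 0 < t := hr.trans_le ht.1
        have h2 := ((dz t ht0).div (hasDerivAt_id t).ofReal_comp (hne t ht)).sub_const
          (z r / (r : ℂ))
        refine h2.congr_deriv ?_
        rw [Wz t ht0 (ht.2.trans_lt hr11)]
        simp only [id]
        push_cast
        congr 1
        ring
      have dB : ∀ t ∈ Icc r r1, HasDerivAt (fun t : ℝ => ε / 2 * (1 / r - 1 / t))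
          (ε / 2 * (1 / t ^ 2)) t := by
        intro t ht
        have ht0 : 0 < t := hr.trans_le ht.1
        have h2 := (((hasDerivAt_inv ht0.ne').const_sub (1 / r))).const_mul (ε / 2)
        have h3 : (fun t : ℝ => ε / 2 * (1 / r - 1 / t)) = fun t : ℝ => ε / 2 * (1 / r - t⁻¹) := by
          funext t; rw [one_div t]
        rw [h3]
        refine h2.congr_deriv ?_
        rw [neg_neg, one_div]
      have h3 := image_norm_le_of_norm_deriv_right_le_deriv_boundary'
        (f := fun t : ℝ => z t / (t : ℂ) - z r / (r : ℂ)) (f' := fun t => -(W t) / (t : ℂ) ^ 2)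
        (a := r) (b := r1) (B := fun t : ℝ => ε / 2 * (1 / r - 1 / t))
        (B' := fun t => ε / 2 * (1 / t ^ 2))
        (fun t ht => (dq t ht).continuousAt.continuousWithinAt)
        (fun t ht => (dq t ⟨ht.1, ht.2.le⟩).hasDerivWithinAt)
        (by simp)
        (fun t ht => (dB t ht).continuousAt.continuousWithinAt)
        (fun t ht => (dB t ⟨ht.1, ht.2.le⟩).hasDerivWithinAt)
        (by
          intro t ht
          have ht0 : 0 < t := hr.trans_le ht.1
          rw [norm_div, norm_neg, norm_pow, Complex.norm_real, Real.norm_eq_abs,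
            abs_of_pos ht0, mul_one_div]
          exact div_le_div_of_nonneg_right (hWb t ht0 ht.2.le) (by positivity))
      have h4 := h3 (x := r1) ⟨hrr, le_rfl⟩
      have h5 : ‖z r / (r : ℂ)‖ ≤ ‖z r1 / (r1 : ℂ)‖ + ‖z r1 / (r1 : ℂ) - z r / (r : ℂ)‖ := by
        have := norm_sub_le (z r1 / (r1 : ℂ)) (z r1 / (r1 : ℂ) - z r / (r : ℂ))
        rwa [sub_sub_cancel] at this
      rw [norm_div, norm_div, Complex.norm_real, Complex.norm_real, Real.norm_eq_abs,
        Real.norm_eq_abs, abs_of_pos hr, abs_of_pos hr10] at h5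
      have h6 : ε / 2 * (1 / r - 1 / r1) ≤ ε / 2 * (1 / r) := by
        refine mul_le_mul_of_nonneg_left ?_ (by positivity)
        have : 0 < 1 / r1 := by positivity
        linarith
      have h7 : ‖z r‖ / r ≤ ‖z r1‖ / r1 + ε / 2 * (1 / r) := by linarith
      have h8 : ‖z r‖ = ‖z r‖ / r * r := by field_simp
      rw [h8]
      calc ‖z r‖ / r * r ≤ (‖z r1‖ / r1 + ε / 2 * (1 / r)) * r :=
            mul_le_mul_of_nonneg_right h7 hr.le
        _ = ε / 2 + r * (‖z r1‖ / r1) := by field_simp; ring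
    set C : ℝ := ‖z r1‖ / r1 with hC
    have hC0 : 0 ≤ C := by positivity
    have hr2 : 0 < min r1 (ε / 2 / (C + 1)) := lt_min hr10 (by positivity)
    filter_upwards [Ioo_mem_nhdsGT hr2] with r hr
    rw [dist_zero_right]
    have h2 := key r hr.1 (hr.2.le.trans (min_le_left _ _))
    have h3 : r < ε / 2 / (C + 1) := hr.2.trans_le (min_le_right _ _)
    rw [lt_div_iff₀ (by positivity)] at h3
    have h4 : 0 < r := hr.1
    nlinarith
  -- conclusion
  have hn : ∀ᵐ r : ℝ, r ∈ Ioi (0 : ℝ) → ‖z r‖ ^ 2 = rf f r ^ 2 := by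
    rw [ae_restrict_iff' measurableSet_Ioi] at hz
    filter_upwards [hz] with r hr hr0
    rw [hr hr0]
    rfl
  have hSf : ∀ t, 0 ≤ t → Sf (fun r => ‖z r‖) t = Sf (rf f) t := by
    intro t ht
    unfold Sf
    rw [intervalIntegral.integral_of_le ht, intervalIntegral.integral_of_le ht]
    congr 1
    refine setIntegral_congr_ae measurableSet_Ioc ?_
    filter_upwards [hn] with r hr hr0
    exact hr hr0.1
  have hphi : ∀ t, 0 ≤ t → phi 0 (fun r => ‖z r‖) t = phi 0 (rf f) t := by
    intro t ht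
    unfold phi
    refine setIntegral_congr_fun measurableSet_Ioi (fun τ hτ => ?_)
    have : t < τ := hτ
    rw [hSf τ (by linarith)]
  refine ⟨z, z1, ⟨zlim, dz, fun r hr => ?_, ?_⟩, ?_⟩
  · rw [hphi r hr.le]
    have := dz1 r hr
    simp only [hc] at this
    convert this using 2
  · exact hzL.norm.integrable_sq
  · unfold Mf
    congr 1
    refine setIntegral_congr_ae measurableSet_Ioi ?_
    filter_upwards [hn] with r hr hr0
    exact hr hr0

end Pool.Agent.H54.HM
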