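import Pool.Agent.H54.HM.Rad

namespace Pool.Agent.H54.HM

open MeasureTheory Set Filter Topology Real Pool.Agent.H99.HM

theorem monoOn_Icc' {f f' : ℝ → ℝ} {a b : ℝ} (hd : ∀ t ∈ Icc a b, HasDerivAt f (f' t) t)
    (h0 : ∀ t ∈ Icc a b, 0 ≤ f' t) (hab : a ≤ b) : f a ≤ f b := by
  have hA : MonotoneOn f (Icc a b) := by
    apply monotoneOn_of_deriv_nonneg (convex_Icc a b)
    · exact fun t ht => (hd t ht).continuousAt.continuousWithinAt
    · intro t ht
      exact (hd t (interior_subset ht)).differentiableAt.differentiableWithinAt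
    · intro t ht
      have ht' : t ∈ Icc a b := interior_subset ht
      rw [(hd t ht').deriv]
      exact h0 t ht'
  exact hA ⟨le_rfl, hab⟩ ⟨hab, le_rfl⟩ hab

/-- growth at the origin -/
theorem growth {f f1 d : ℝ → ℝ} {K δ : ℝ} (hK : 0 ≤ K)
    (hf : ∀ r, 0 < r → HasDerivAt f (f1 r) r) (hf1 : ∀ r, 0 < r → HasDerivAt f1 (d r) r)
    (hd : ∀ r, 0 < r → r ≤ δ → |d r| ≤ K / r) (h0 : Tendsto f (𝓝[>] 0) (𝓝 0)) :
    ∃ A, 0 ≤ A ∧ ∀ r, 0 < r → r ≤ δ → |f1 r| ≤ A - K * Real.log r ∧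
      |f r| ≤ A * r - K * (r * Real.log r - r) := by
  set A := |f1 δ| + K * |Real.log δ| with hA
  have hA0 : 0 ≤ A := by positivity
  have h1 : ∀ r, 0 < r → r ≤ δ → |f1 r| ≤ A - K * Real.log r := by
    intro r hr hrδ
    have hlog : K * Real.log δ ≤ K * |Real.log δ| := mul_le_mul_of_nonneg_left (le_abs_self _) hK
    have e1 : f1 r + K * Real.log r ≤ f1 δ + K * Real.log δ := by
      apply monoOn_Icc' (f := fun t => f1 t + K * Real.log t) (f' := fun t => d t + K * t⁻¹) _ _ hrδ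
      · intro t ht
        have ht0 : 0 < t := lt_of_lt_of_le hr ht.1
        exact (hf1 t ht0).add ((Real.hasDerivAt_log ht0.ne').const_mul K)
      · intro t ht
        have ht0 : 0 < t := lt_of_lt_of_le hr ht.1
        have := (abs_le.1 (hd t ht0 ht.2)).1
        rw [div_eq_mul_inv] at this
        linarith
    have e2 : -f1 r + K * Real.log r ≤ -f1 δ + K * Real.log δ := by
      apply monoOn_Icc' (f := fun t => -f1 t + K * Real.log t) (f' := fun t => -d t + K * t⁻¹) _ _ hrδ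
      · intro t ht
        have ht0 : 0 < t := lt_of_lt_of_le hr ht.1
        exact (hf1 t ht0).neg.add ((Real.hasDerivAt_log ht0.ne').const_mul K)
      · intro t ht
        have ht0 : 0 < t := lt_of_lt_of_le hr ht.1
        have := (abs_le.1 (hd t ht0 ht.2)).2
        rw [div_eq_mul_inv] at this
        linarith
    have e3 := le_abs_self (f1 δ)
    have e4 := neg_abs_le (f1 δ)
    rw [abs_le]; constructor <;> linarith
  refine ⟨A, hA0, fun r hr hrδ => ⟨h1 r hr hrδ, ?_⟩⟩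
  -- the primitive tends to 0
  have hF : Tendsto (fun r : ℝ => A * r - K * (r * Real.log r - r)) (𝓝[>] 0) (𝓝 0) := by
    have hc : Continuous fun r : ℝ => A * r - K * (r * Real.log r - r) :=
      (continuous_const.mul continuous_id).sub (continuous_const.mul
        ((Real.continuous_mul_log).sub continuous_id))
    have := hc.tendsto 0
    simp only [mul_zero, zero_mul, sub_zero] at this
    exact tendsto_nhdsWithin_of_tendsto_nhds this
  have hFd : ∀ t, 0 < t → HasDerivAt (fun r : ℝ => A * r - K * (r * Real.log r - r))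
      (A * 1 - K * (Real.log t + 1 - 1)) t := by
    intro t ht
    exact ((hasDerivAt_id t).const_mul A).sub (((Real.hasDerivAt_mul_log ht.ne').sub (hasDerivAt_id t)).const_mul K)
  have key : ∀ ρ, 0 < ρ → ρ ≤ r →
      (A * ρ - K * (ρ * Real.log ρ - ρ)) + f ρ ≤ (A * r - K * (r * Real.log r - r)) + f r ∧
      (A * ρ - K * (ρ * Real.log ρ - ρ)) - f ρ ≤ (A * r - K * (r * Real.log r - r)) - f r := by
    intro ρ hρ hρr
    constructor
    · apply monoOn_Icc' (f := fun t => (A * t - K * (t * Real.log t - t)) + f t)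
        (f' := fun t => (A * 1 - K * (Real.log t + 1 - 1)) + f1 t) _ _ hρr
      · intro t ht
        have ht0 : 0 < t := lt_of_lt_of_le hρ ht.1
        exact (hFd t ht0).add (hf t ht0)
      · intro t ht
        have ht0 : 0 < t := lt_of_lt_of_le hρ ht.1
        have := (abs_le.1 (h1 t ht0 (le_trans ht.2 hrδ))).1
        linarith
    · apply monoOn_Icc' (f := fun t => (A * t - K * (t * Real.log t - t)) - f t)
        (f' := fun t => (A * 1 - K * (Real.log t + 1 - 1)) - f1 t) _ _ hρr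
      · intro t ht
        have ht0 : 0 < t := lt_of_lt_of_le hρ ht.1
        exact (hFd t ht0).sub (hf t ht0)
      · intro t ht
        have ht0 : 0 < t := lt_of_lt_of_le hρ ht.1
        have := (abs_le.1 (h1 t ht0 (le_trans ht.2 hrδ))).2
        linarith
  have hev : ∀ᶠ ρ in 𝓝[>] (0 : ℝ), 0 < ρ ∧ ρ ≤ r := by
    filter_upwards [Ioc_mem_nhdsGT hr] with ρ hρ
    exact ⟨hρ.1, hρ.2⟩
  have l1 : 0 + 0 ≤ (A * r - K * (r * Real.log r - r)) + f r :=
    le_of_tendsto (hF.add h0) (hev.mono fun ρ hρ => (key ρ hρ.1 hρ.2).1)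
  have l2 : 0 - 0 ≤ (A * r - K * (r * Real.log r - r)) - f r :=
    le_of_tendsto (hF.sub h0) (hev.mono fun ρ hρ => (key ρ hρ.1 hρ.2).2)
  rw [abs_le]; constructor <;> linarith

theorem lim_aux (A K : ℝ) :
    Tendsto (fun r : ℝ => (A * r - K * (r * Real.log r - r)) * (A - K * Real.log r)) (𝓝[>] 0) (𝓝 0) := by
  -- sqrt trick
  have h1 : Tendsto (fun r : ℝ => Real.log r * r ^ (1 / 2 : ℝ)) (𝓝[>] 0) (𝓝 0) :=
    tendsto_log_mul_rpow_nhdsGT_zero (by norm_num)
  have h2 : Tendsto (fun r : ℝ => r ^ (1 / 2 : ℝ)) (𝓝[>] 0) (𝓝 0) := by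
    have : Tendsto (fun r : ℝ => r ^ (1 / 2 : ℝ)) (𝓝 0) (𝓝 (0 ^ (1 / 2 : ℝ))) :=
      (Real.continuousAt_rpow_const 0 (1 / 2) (Or.inr (by norm_num))).tendsto
    rw [Real.zero_rpow (by norm_num)] at this
    exact tendsto_nhdsWithin_of_tendsto_nhds this
  have h3 : Tendsto (fun r : ℝ => (A * r ^ (1 / 2 : ℝ) - K * (Real.log r * r ^ (1 / 2 : ℝ) - r ^ (1 / 2 : ℝ))) *
      (A * r ^ (1 / 2 : ℝ) - K * (Real.log r * r ^ (1 / 2 : ℝ)))) (𝓝[>] 0)
      (𝓝 ((A * 0 - K * (0 - 0)) * (A * 0 - K * 0))) :=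
    ((h2.const_mul A).sub ((h1.sub h2).const_mul K)).mul ((h2.const_mul A).sub (h1.const_mul K))
  simp only [mul_zero, sub_zero] at h3
  refine h3.congr' ?_
  filter_upwards [self_mem_nhdsWithin] with r hr
  have hr0 : (0 : ℝ) < r := hr
  have h4 : r = r ^ (1 / 2 : ℝ) * r ^ (1 / 2 : ℝ) := by
    rw [← Real.rpow_add hr0]; norm_num
  set q := r ^ (1 / 2 : ℝ) with hq
  set l := Real.log r
  have h5 : A * r - K * (r * l - r) = q * (A * q - K * (l * q - q)) := by
    rw [h4]; ring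
  rw [h5]; ring

theorem dep {a b a1 b1 : ℝ} (h : a * b1 - b * a1 = 0) :
    ∃ al be : ℝ, al ^ 2 + be ^ 2 = 1 ∧ al * a + be * b = 0 ∧ al * a1 + be * b1 = 0 := by
  by_cases h1 : a ^ 2 + b ^ 2 = 0
  · have ha : a = 0 := by nlinarith [sq_nonneg a, sq_nonneg b]
    have hb : b = 0 := by nlinarith [sq_nonneg a, sq_nonneg b]
    by_cases h2 : a1 ^ 2 + b1 ^ 2 = 0
    · have ha1 : a1 = 0 := by nlinarith [sq_nonneg a1, sq_nonneg b1]
      have hb1 : b1 = 0 := by nlinarith [sq_nonneg a1, sq_nonneg b1]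
      exact ⟨1, 0, by norm_num, by simp [ha], by simp [ha1]⟩
    · have hp : 0 < a1 ^ 2 + b1 ^ 2 := lt_of_le_of_ne (by positivity) (Ne.symm h2)
      have hs := Real.sq_sqrt hp.le
      have hs0 : 0 < Real.sqrt (a1 ^ 2 + b1 ^ 2) := Real.sqrt_pos.2 hp
      refine ⟨b1 / Real.sqrt (a1 ^ 2 + b1 ^ 2), -a1 / Real.sqrt (a1 ^ 2 + b1 ^ 2), ?_, by simp [ha, hb], ?_⟩
      · rw [div_pow, div_pow, hs]; field_simp; ring
      · field_simp; ring
  · have hp : 0 < a ^ 2 + b ^ 2 := lt_of_le_of_ne (by positivity) (Ne.symm h1)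
    have hs := Real.sq_sqrt hp.le
    have hs0 : 0 < Real.sqrt (a ^ 2 + b ^ 2) := Real.sqrt_pos.2 hp
    refine ⟨b / Real.sqrt (a ^ 2 + b ^ 2), -a / Real.sqrt (a ^ 2 + b ^ 2), ?_, ?_, ?_⟩
    · rw [div_pow, div_pow, hs]; field_simp; ring
    · field_simp; ring
    · have : b / Real.sqrt (a ^ 2 + b ^ 2) * a1 + -a / Real.sqrt (a ^ 2 + b ^ 2) * b1 =
        -(a * b1 - b * a1) / Real.sqrt (a ^ 2 + b ^ 2) := by ring
      rw [this, h]; simp

theorem sf_congr {σ τ : ℝ → ℝ} (h : ∀ r, 0 < r → σ r ^ 2 = τ r ^ 2) (t : ℝ) (ht : 0 ≤ t) :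
    Sf σ t = Sf τ t := by
  unfold Sf
  congr 1
  rw [intervalIntegral.integral_of_le ht, intervalIntegral.integral_of_le ht]
  exact setIntegral_congr_fun measurableSet_Ioc fun r hr => h r hr.1

theorem phi_congr {σ τ : ℝ → ℝ} (h : ∀ r, 0 < r → σ r ^ 2 = τ r ^ 2) (x t : ℝ) (ht : 0 ≤ t) :
    phi x σ t = phi x τ t := by
  unfold phi
  apply setIntegral_congr_fun measurableSet_Ioi
  intro r hr
  have hr' : t < r := hr
  simp only
  rw [sf_congr h r (by linarith)]

theorem real (hO : T_ode) : T_real := by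
  intro lam s s1 hR
  have hsc : ContinuousOn s (Ioi 0) := fun t ht => (hR.der t ht).continuousAt.continuousWithinAt
  have B := basic (σ := fun t => ‖s t‖) hsc.norm hR.int0
  set M := Mf (fun t => ‖s t‖) with hM
  have hM0 : 0 ≤ M := B.Mnn
  set c : ℝ → ℝ := fun r => -(phi 0 (fun t => ‖s t‖) r + lam) with hc
  set a : ℝ → ℝ := fun r => (s r).re with ha
  set b : ℝ → ℝ := fun r => (s r).im with hb
  set a1 : ℝ → ℝ := fun r => (s1 r).re with ha1
  set b1 : ℝ → ℝ := fun r => (s1 r).im with hb1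
  have da : ∀ r, 0 < r → HasDerivAt a (a1 r) r := fun r hr => by
    exact (Complex.reCLM.hasFDerivAt.comp_hasDerivAt r (hR.der r hr))
  have db : ∀ r, 0 < r → HasDerivAt b (b1 r) r := fun r hr => by
    exact (Complex.imCLM.hasFDerivAt.comp_hasDerivAt r (hR.der r hr))
  have da1 : ∀ r, 0 < r → HasDerivAt a1 (c r * a r) r := fun r hr => by
    have h := (Complex.reCLM.hasFDerivAt.comp_hasDerivAt r (hR.der1 r hr))
    refine h.congr_deriv ?_
    have e : (-((phi 0 (fun t => ‖s t‖) r + lam : ℝ) : ℂ) * s r) = ((c r : ℝ) : ℂ) * s r := by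
      simp [hc]
    rw [e]
    simp [ha]
  have db1 : ∀ r, 0 < r → HasDerivAt b1 (c r * b r) r := fun r hr => by
    have h := (Complex.imCLM.hasFDerivAt.comp_hasDerivAt r (hR.der1 r hr))
    refine h.congr_deriv ?_
    have e : (-((phi 0 (fun t => ‖s t‖) r + lam : ℝ) : ℂ) * s r) = ((c r : ℝ) : ℂ) * s r := by
      simp [hc]
    rw [e]
    simp [hb]
  have ta : Tendsto a (𝓝[>] 0) (𝓝 0) := by
    have := (Complex.continuous_re.tendsto 0).comp hR.zero
    rw [Complex.zero_re] at this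
    exact this
  have tb : Tendsto b (𝓝[>] 0) (𝓝 0) := by
    have := (Complex.continuous_im.tendsto 0).comp hR.zero
    rw [Complex.zero_im] at this
    exact this
  -- small interval where |s| ≤ 1
  obtain ⟨δ, hδ0, hδ1, hδ⟩ : ∃ δ, 0 < δ ∧ δ ≤ 1 ∧ ∀ r, 0 < r → r ≤ δ → ‖s r‖ ≤ 1 := by
    have h1 : ∀ᶠ r in 𝓝[>] (0 : ℝ), ‖s r‖ < 1 := by
      have := hR.zero.norm
      rw [norm_zero] at this
      exact this.eventually (gt_mem_nhds one_pos)
    obtain ⟨u, hu0, hu⟩ := (mem_nhdsGT_iff_exists_Ioo_subset' (show (0 : ℝ) < 1 from one_pos)).1 h1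
    refine ⟨min (u / 2) 1, lt_min (by have : (0:ℝ) < u := hu0; linarith) one_pos, min_le_right _ _, fun r hr hr' => ?_⟩
    have h3 : r < u := by
      have : (0 : ℝ) < u := hu0
      have := le_trans hr' (min_le_left _ _)
      linarith
    exact le_of_lt (hu ⟨hr, h3⟩)
  set K := 1 + M + |lam| with hK
  have hK0 : 0 ≤ K := by positivity
  have hcb : ∀ r, 0 < r → r ≤ δ → |c r| ≤ K / r := by
    intro r hr hrδ
    have h1 := B.phiBd r hr
    have h2 : |c r| ≤ |phi 0 (fun t => ‖s t‖) r| + |lam| := by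
      simp only [hc, abs_neg]
      exact abs_add_le _ _
    have h3 : |lam| ≤ |lam| / r := by
      rw [le_div_iff₀ hr]
      have := abs_nonneg lam
      nlinarith
    have h4 : K / r = (1 + M) / r + |lam| / r := by rw [hK]; ring
    rw [h4]; linarith
  have hda : ∀ r, 0 < r → r ≤ δ → |c r * a r| ≤ K / r := by
    intro r hr hrδ
    rw [abs_mul]
    have h1 : |a r| ≤ 1 := le_trans (Complex.abs_re_le_norm _) (hδ r hr hrδ)
    calc |c r| * |a r| ≤ |c r| * 1 := mul_le_mul_of_nonneg_left h1 (abs_nonneg _)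
      _ ≤ K / r := by rw [mul_one]; exact hcb r hr hrδ
  have hdb : ∀ r, 0 < r → r ≤ δ → |c r * b r| ≤ K / r := by
    intro r hr hrδ
    rw [abs_mul]
    have h1 : |b r| ≤ 1 := le_trans (Complex.abs_im_le_norm _) (hδ r hr hrδ)
    calc |c r| * |b r| ≤ |c r| * 1 := mul_le_mul_of_nonneg_left h1 (abs_nonneg _)
      _ ≤ K / r := by rw [mul_one]; exact hcb r hr hrδ
  obtain ⟨Aa, hAa, hga⟩ := growth hK0 da da1 hda ta
  obtain ⟨Ab, hAb, hgb⟩ := growth hK0 db db1 hdb tb
  -- Wronskian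
  set W : ℝ → ℝ := fun r => a r * b1 r - b r * a1 r with hW
  have dW : ∀ r, 0 < r → HasDerivAt W 0 r := by
    intro r hr
    have h := ((da r hr).mul (db1 r hr)).sub ((db r hr).mul (da1 r hr))
    refine h.congr_deriv ?_
    ring
  have hWc : ∀ r, 0 < r → r ≤ 1 → W r = W 1 := by
    intro r hr hr1
    apply le_antisymm
    · exact monoOn_Icc' (f := W) (f' := fun _ => 0) (fun t ht => dW t (lt_of_lt_of_le hr ht.1))
        (fun t _ => le_rfl) hr1
    · have := monoOn_Icc' (f := fun t => -W t) (f' := fun _ => -0)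
        (fun t ht => (dW t (lt_of_lt_of_le hr ht.1)).neg) (fun t _ => by simp) hr1
      linarith
  have hW0 : W 1 = 0 := by
    have hlim : Tendsto (fun r => ‖W r‖) (𝓝[>] 0) (𝓝 0) := by
      have hA1 := lim_aux (Aa + Ab) K
      have hA2 := hA1.const_mul 2
      rw [mul_zero] at hA2
      refine squeeze_zero' (Eventually.of_forall fun r => norm_nonneg _) ?_ hA2
      filter_upwards [Ioc_mem_nhdsGT hδ0] with r hr
      obtain ⟨g1, g2⟩ := hga r hr.1 hr.2
      obtain ⟨g3, g4⟩ := hgb r hr.1 hr.2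
      set X := (Aa + Ab) * r - K * (r * Real.log r - r) with hX
      set Y := (Aa + Ab) - K * Real.log r with hY
      have hr0 : 0 < r := hr.1
      have x1 : |a r| ≤ X := by rw [hX]; nlinarith [mul_nonneg hAb hr0.le]
      have x2 : |b r| ≤ X := by rw [hX]; nlinarith [mul_nonneg hAa hr0.le]
      have y1 : |a1 r| ≤ Y := by rw [hY]; linarith
      have y2 : |b1 r| ≤ Y := by rw [hY]; linarith
      have hX0 : 0 ≤ X := le_trans (abs_nonneg _) x1
      rw [Real.norm_eq_abs]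
      calc |a r * b1 r - b r * a1 r| ≤ |a r * b1 r| + |b r * a1 r| := abs_sub _ _
        _ = |a r| * |b1 r| + |b r| * |a1 r| := by rw [abs_mul, abs_mul]
        _ ≤ X * Y + X * Y := add_le_add (mul_le_mul x1 y2 (abs_nonneg _) hX0)
            (mul_le_mul x2 y1 (abs_nonneg _) hX0)
        _ = 2 * (X * Y) := by ring
    have hlim2 : Tendsto (fun r => ‖W r‖) (𝓝[>] 0) (𝓝 ‖W 1‖) := by
      refine tendsto_const_nhds.congr' ?_
      filter_upwards [Ioc_mem_nhdsGT (show (0 : ℝ) < 1 from one_pos)] with r hr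
      rw [hWc r hr.1 hr.2]
    have := tendsto_nhds_unique hlim hlim2
    exact norm_eq_zero.1 this.symm
  obtain ⟨al, be, hab, hd0, hd1⟩ := dep (a := a 1) (b := b 1) (a1 := a1 1) (b1 := b1 1) hW0
  have hcc : ContinuousOn c (Ioi 0) := fun t ht =>
    ((B.phiDer t ht).continuousAt.add continuousAt_const).neg.continuousWithinAt
  have hy := hO c (fun r => al * a r + be * b r) (fun r => al * a1 r + be * b1 r) 1 hcc
    (fun r hr => ((da r hr).const_mul al).add ((db r hr).const_mul be))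
    (fun r hr => (((da1 r hr).const_mul al).add ((db1 r hr).const_mul be)).congr_deriv (by ring))
    one_pos hd0 hd1
  set σ : ℝ → ℝ := fun r => be * a r - al * b r with hσ
  have hsq : ∀ r, 0 < r → σ r ^ 2 = ‖s r‖ ^ 2 := by
    intro r hr
    have h1 := (hy r hr).1
    rw [Complex.sq_norm, Complex.normSq_apply]
    have h2 : σ r ^ 2 = (al ^ 2 + be ^ 2) * (a r ^ 2 + b r ^ 2) - (al * a r + be * b r) ^ 2 := by
      simp only [hσ]; ring
    rw [h2, hab, h1]
    simp only [ha, hb]; ring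
  have habs : ∀ r, 0 < r → |σ r| = ‖s r‖ := by
    intro r hr
    have := hsq r hr
    rw [← sq_abs] at this
    exact (pow_left_inj₀ (abs_nonneg _) (norm_nonneg _) two_ne_zero).1 this
  refine ⟨σ, fun r => be * a1 r - al * b1 r, ⟨?_, ?_, ?_, ?_⟩, habs⟩
  · have := (ta.const_mul be).sub (tb.const_mul al)
    simpa using this
  · intro r hr
    exact ((da r hr).const_mul be).sub ((db r hr).const_mul al)
  · intro r hr
    refine (((da1 r hr).const_mul be).sub ((db1 r hr).const_mul al)).congr_deriv ?_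
    rw [phi_congr hsq 0 r hr.le]
    simp only [hc, hσ]
    ring
  · exact hR.int0.congr_fun (fun r hr => (hsq r hr).symm) measurableSet_Ioi

end Pool.Agent.H54.HM
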