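import Pool.Agent.H54.HM.Rad

namespace Pool.Agent.H54.HM

open MeasureTheory Set Filter Topology Real Pool.Agent.H99.HM

theorem monoOn_of_hasDerivAt {f f' : ℝ → ℝ} {R : ℝ} (hd : ∀ t, R ≤ t → HasDerivAt f (f' t) t)
    (h0 : ∀ t, R ≤ t → 0 ≤ f' t) : ∀ t, R ≤ t → f R ≤ f t := by
  intro t ht
  have hA : MonotoneOn f (Ici R) := by
    apply monotoneOn_of_deriv_nonneg (convex_Ici R)
    · exact fun t ht => (hd t ht).continuousAt.continuousWithinAt
    · intro t ht
      exact (hd t (interior_subset ht)).differentiableAt.differentiableWithinAt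
    · intro t ht
      have ht' : t ∈ Ici R := interior_subset ht
      rw [(hd t ht').deriv]
      exact h0 t ht'
  exact hA (mem_Ici.2 le_rfl) (mem_Ici.2 ht) ht

theorem pos (hO : T_ode) : T_pos := by
  intro lam σ σ1 hR hne
  by_contra hlam
  push Not at hlam
  have hσc : ContinuousOn σ (Ioi 0) := fun t ht => (hR.der t ht).continuousAt.continuousWithinAt
  have B := basic hσc hR.int0
  have hpi := Real.pi_pos
  set M := Mf σ with hM
  have hM0 : 0 ≤ M := B.Mnn
  set R0 := 1 + 2 * (1 + M) / lam with hR0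
  have hR01 : 1 ≤ R0 := by
    have : 0 ≤ 2 * (1 + M) / lam := by positivity
    linarith
  have hR0pos : 0 < R0 := by linarith
  -- phi is small beyond R0
  have hphi : ∀ r, R0 ≤ r → |phi 0 σ r| ≤ lam / 2 := by
    intro r hr
    have hr0 : 0 < r := by linarith
    refine le_trans (B.phiBd r hr0) ?_
    rw [div_le_iff₀ hr0]
    have h1 : 2 * (1 + M) / lam ≤ r := by linarith
    rw [div_le_iff₀ hlam] at h1
    nlinarith
  set e : ℝ → ℝ := fun r => σ1 r ^ 2 + (phi 0 σ r + lam) * σ r ^ 2 with he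
  have hed : ∀ r, 0 < r → HasDerivAt e (-((1 - Sf σ r) / (0 + r) ^ 2) * σ r ^ 2) r := by
    intro r hr
    have h1 := ((hR.der1 r hr).pow 2).add (((B.phiDer r hr).add_const lam).mul ((hR.der r hr).pow 2))
    refine h1.congr_deriv ?_
    push_cast
    simp only [Nat.add_one_sub_one, pow_one, Pi.pow_apply]
    ring
  have hS01 : ∀ r, 0 < r → |1 - Sf σ r| ≤ 1 + M := by
    intro r hr
    have h1 := B.Snn r hr.le
    have h2 := B.Sle r hr.le
    rw [abs_le]; constructor <;> linarith
  have hes : ∀ r, R0 ≤ r → lam / 2 * σ r ^ 2 + σ1 r ^ 2 ≤ e r := by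
    intro r hr
    have := (abs_le.1 (hphi r hr)).1
    simp only [he]
    nlinarith [sq_nonneg (σ r)]
  have henn : ∀ r, R0 ≤ r → 0 ≤ e r := fun r hr => le_trans (by positivity) (hes r hr)
  -- e(R0) > 0
  have heR0 : 0 < e R0 := by
    rcases (henn R0 le_rfl).lt_or_eq with h | h
    · exact h
    exfalso
    have h1 := hes R0 le_rfl
    have h2 : σ R0 = 0 := by
      have h3 : lam / 2 * σ R0 ^ 2 ≤ 0 := by nlinarith [sq_nonneg (σ1 R0)]
      have h4 : σ R0 ^ 2 ≤ 0 := by
        by_contra hh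
        push Not at hh
        have : 0 < lam / 2 * σ R0 ^ 2 := by positivity
        linarith
      exact pow_eq_zero_iff (two_ne_zero) |>.1 (le_antisymm h4 (sq_nonneg _))
    have h5 : σ1 R0 = 0 := by
      have h4 : σ1 R0 ^ 2 ≤ 0 := by nlinarith [mul_nonneg hlam.le (sq_nonneg (σ R0))]
      exact pow_eq_zero_iff (two_ne_zero) |>.1 (le_antisymm h4 (sq_nonneg _))
    have hc : ContinuousOn (fun r => -(phi 0 σ r + lam)) (Ioi 0) := fun t ht =>
      ((B.phiDer t ht).continuousAt.add continuousAt_const).neg.continuousWithinAt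
    obtain ⟨r, hr, hr1⟩ := hne
    exact hr1 (hO _ σ σ1 R0 hc hR.der hR.der1 hR0pos h2 h5 r hr).1
  -- lower bound
  set K := 2 * (1 + M) / lam with hK
  have hK0 : 0 ≤ K := by positivity
  have hlow : ∀ r, R0 ≤ r → e R0 * Real.exp (-K / R0) ≤ e r * Real.exp (-K / r) := by
    apply monoOn_of_hasDerivAt (f := fun r => e r * Real.exp (-K / r))
      (f' := fun r => (-((1 - Sf σ r) / (0 + r) ^ 2) * σ r ^ 2) * Real.exp (-K / r)
      + e r * (Real.exp (-K / r) * (K / r ^ 2)))
    · intro t ht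
      have ht0 : 0 < t := by linarith
      have h1 : HasDerivAt (fun r : ℝ => -K / r) (K / t ^ 2) t := by
        have := (hasDerivAt_const t (-K)).div (hasDerivAt_id t) (ne_of_gt ht0)
        refine this.congr_deriv ?_
        simp
      exact (hed t ht0).mul h1.exp
    · intro t ht
      have ht0 : 0 < t := by linarith
      have hp := Real.exp_pos (-K / t)
      have h1 := hes t ht
      have h2 := (abs_le.1 (hS01 t ht0)).2
      have h3 : (1 - Sf σ t) * σ t ^ 2 ≤ K * e t := by
        have h4 : lam * σ t ^ 2 ≤ 2 * e t := by nlinarith [sq_nonneg (σ1 t)]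
        have h5 : (1 - Sf σ t) * σ t ^ 2 ≤ (1 + M) * σ t ^ 2 :=
          mul_le_mul_of_nonneg_right h2 (sq_nonneg _)
        have h6 : (1 + M) * σ t ^ 2 ≤ K * e t := by
          rw [hK, div_mul_eq_mul_div, le_div_iff₀ hlam]
          nlinarith
        linarith
      have h7 : (-((1 - Sf σ t) / (0 + t) ^ 2) * σ t ^ 2) * Real.exp (-K / t)
          + e t * (Real.exp (-K / t) * (K / t ^ 2)) =
          (K * e t - (1 - Sf σ t) * σ t ^ 2) * (Real.exp (-K / t) / t ^ 2) := by
        rw [zero_add]; field_simp; ring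
      rw [h7]
      apply mul_nonneg (by linarith)
      positivity
  set c := e R0 * Real.exp (-K / R0) with hc
  have hc0 : 0 < c := by positivity
  have hlow2 : ∀ r, R0 ≤ r → c ≤ e r := by
    intro r hr
    have h1 := hlow r hr
    have hr0 : 0 < r := by linarith
    have h2 : Real.exp (-K / r) ≤ 1 := by
      rw [Real.exp_le_one_iff]
      rw [neg_div]
      have : 0 ≤ K / r := by positivity
      linarith
    have h3 := henn r hr
    nlinarith
  -- upper bound
  have hup : ∀ r, R0 ≤ r → e r ≤ e R0 + (1 + M) * M := by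
    intro r hr
    have h1 : ∀ r, R0 ≤ r → ((1 + M) / (4 * π)) * Sf σ R0 - e R0 ≤ ((1 + M) / (4 * π)) * Sf σ r - e r := by
      apply monoOn_of_hasDerivAt (f := fun r => ((1 + M) / (4 * π)) * Sf σ r - e r)
        (f' := fun r => ((1 + M) / (4 * π)) * (4 * π * σ r ^ 2) -
        (-((1 - Sf σ r) / (0 + r) ^ 2) * σ r ^ 2))
      · intro t ht
        have ht0 : 0 < t := by linarith
        exact ((B.Sder t ht0).const_mul _).sub (hed t ht0)
      · intro t ht
        have ht0 : 0 < t := by linarith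
        have ht1 : 1 ≤ t := by linarith
        have h2 := (abs_le.1 (hS01 t ht0)).1
        have h3 : -(1 + M) ≤ (1 - Sf σ t) / (0 + t) ^ 2 := by
          rw [le_div_iff₀ (by positivity), zero_add]
          have : 1 ≤ t ^ 2 := by nlinarith
          nlinarith
        have h4 : ((1 + M) / (4 * π)) * (4 * π * σ t ^ 2) = (1 + M) * σ t ^ 2 := by
          field_simp
        rw [h4]
        nlinarith [sq_nonneg (σ t)]
    have h2 := h1 r hr
    have h3 := B.Sle r (by linarith)
    have h4 := B.Snn R0 (by linarith)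
    have h5 : ((1 + M) / (4 * π)) * Sf σ r ≤ (1 + M) * M := by
      have h6 : (1 + M) / (4 * π) ≤ 1 + M := by
        apply div_le_self (by linarith)
        nlinarith [Real.pi_gt_three]
      calc ((1 + M) / (4 * π)) * Sf σ r ≤ ((1 + M) / (4 * π)) * M :=
            mul_le_mul_of_nonneg_left h3 (by positivity)
        _ ≤ (1 + M) * M := mul_le_mul_of_nonneg_right h6 hM0
    have h7 : 0 ≤ ((1 + M) / (4 * π)) * Sf σ R0 := by positivity
    linarith
  -- the function h = σ σ1
  set Bd := lam / 2 + lam with hBd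
  have hh : ∀ r, R0 ≤ r → σ R0 * σ1 R0 + (2 * Bd / (4 * π)) * Sf σ R0 - c * R0 ≤
      σ r * σ1 r + (2 * Bd / (4 * π)) * Sf σ r - c * r := by
    apply monoOn_of_hasDerivAt (f := fun r => σ r * σ1 r + (2 * Bd / (4 * π)) * Sf σ r - c * r)
      (f' := fun r => (σ1 r * σ1 r + σ r * (-(phi 0 σ r + lam) * σ r)) +
      (2 * Bd / (4 * π)) * (4 * π * σ r ^ 2) - c * 1)
    · intro t ht
      have ht0 : 0 < t := by linarith
      exact (((hR.der t ht0).mul (hR.der1 t ht0)).add ((B.Sder t ht0).const_mul _)).sub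
        ((hasDerivAt_id t).const_mul c)
    · intro t ht
      have h1 := hlow2 t ht
      have h2 := (abs_le.1 (hphi t ht)).2
      have h4 : (2 * Bd / (4 * π)) * (4 * π * σ t ^ 2) = 2 * Bd * σ t ^ 2 := by
        field_simp
      rw [h4]
      simp only [he] at h1
      have h5 : 0 ≤ (Bd - (phi 0 σ t + lam)) * σ t ^ 2 :=
        mul_nonneg (by linarith) (sq_nonneg _)
      nlinarith
  -- h is bounded
  set C := e R0 + (1 + M) * M with hC
  have hC0 : 0 ≤ C := by positivity
  have hbd : ∀ r, R0 ≤ r → |σ r * σ1 r| ≤ C / lam + C := by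
    intro r hr
    have h1 := hes r hr
    have h2 := hup r hr
    have h3 : σ r ^ 2 ≤ 2 * C / lam := by
      rw [le_div_iff₀ hlam]; nlinarith [sq_nonneg (σ1 r)]
    have h4 : σ1 r ^ 2 ≤ C := by nlinarith [mul_nonneg hlam.le (sq_nonneg (σ r))]
    have h5 : 2 * C / lam = 2 * (C / lam) := by ring
    rw [abs_le]
    constructor <;> nlinarith [sq_nonneg (σ r + σ1 r), sq_nonneg (σ r - σ1 r)]
  set D := 2 * (C / lam + C) + (2 * Bd / (4 * π)) * M with hD
  have hD0 : 0 ≤ D := by
    have : 0 ≤ C / lam := by positivity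
    positivity
  have hT : R0 ≤ R0 + (D + 1) / c := by
    have : 0 ≤ (D + 1) / c := by positivity
    linarith
  have h1 := hh _ hT
  have h2 := (abs_le.1 (hbd _ hT)).2
  have h3 := (abs_le.1 (hbd R0 le_rfl)).1
  have h4 := B.Sle (R0 + (D + 1) / c) (by linarith)
  have h5 := B.Snn R0 (by linarith)
  have h6 : 0 ≤ 2 * Bd / (4 * π) := by positivity
  have h7 : c * (R0 + (D + 1) / c) = c * R0 + (D + 1) := by field_simp
  have h8 : (2 * Bd / (4 * π)) * Sf σ (R0 + (D + 1) / c) ≤ (2 * Bd / (4 * π)) * M :=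
    mul_le_mul_of_nonneg_left h4 h6
  have h9 : 0 ≤ (2 * Bd / (4 * π)) * Sf σ R0 := mul_nonneg h6 h5
  rw [h7] at h1
  linarith

end Pool.Agent.H54.HM
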