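import Pool.Agent.H99.HM.Targets

namespace Pool.Agent.H54.HM

open MeasureTheory Set Filter Topology Real Pool.Agent.H99.HM

/-- basic facts about `S` and `phi 0` for a continuous square integrable function -/
structure BF (σ : ℝ → ℝ) : Prop where
  Mnn : 0 ≤ Mf σ
  Snn : ∀ t, 0 ≤ t → 0 ≤ Sf σ t
  Sle : ∀ t, 0 ≤ t → Sf σ t ≤ Mf σ
  Sder : ∀ t, 0 < t → HasDerivAt (Sf σ) (4 * π * σ t ^ 2) t
  phiInt : ∀ t, 0 < t → IntegrableOn (fun τ => (1 - Sf σ τ) / (0 + τ) ^ 2) (Ioi t)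
  phiDer : ∀ t, 0 < t → HasDerivAt (phi 0 σ) (-((1 - Sf σ t) / (0 + t) ^ 2)) t
  phiBd : ∀ t, 0 < t → |phi 0 σ t| ≤ (1 + Mf σ) / t

theorem integrable_inv_sq {t : ℝ} (ht : 0 < t) (K : ℝ) (hK : 0 ≤ K) :
    IntegrableOn (fun τ : ℝ => K / τ ^ 2) (Ioi t) ∧ ∫ τ in Ioi t, K / τ ^ 2 = K / t := by
  have hder : ∀ τ ∈ Ici t, HasDerivAt (fun τ : ℝ => -K / τ) (K / τ ^ 2) τ := by
    intro τ hτ
    have hτ' : t ≤ τ := hτ
    have h0 : τ ≠ 0 := by linarith
    have := (hasDerivAt_const τ (-K)).div (hasDerivAt_id τ) h0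
    refine this.congr_deriv ?_
    simp
  have hlim : Tendsto (fun τ : ℝ => -K / τ) atTop (𝓝 0) := by
    apply Tendsto.div_atTop tendsto_const_nhds tendsto_id
  have hnn : ∀ τ ∈ Ioi t, 0 ≤ K / τ ^ 2 := fun τ _ => by positivity
  refine ⟨integrableOn_Ioi_deriv_of_nonneg' hder hnn hlim, ?_⟩
  rw [integral_Ioi_of_hasDerivAt_of_nonneg' hder hnn hlim]
  ring

theorem basic {σ : ℝ → ℝ} (hc : ContinuousOn σ (Ioi 0)) (hi : IntegrableOn (fun r => σ r ^ 2) (Ioi 0)) :
    BF σ := by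
  have hp := Real.pi_pos
  have hM : 0 ≤ Mf σ := by
    unfold Mf
    have : 0 ≤ ∫ t in Ioi (0 : ℝ), σ t ^ 2 := setIntegral_nonneg measurableSet_Ioi fun t _ => by positivity
    positivity
  have hS : ∀ t, 0 ≤ t → Sf σ t = 4 * π * ∫ τ in Ioc 0 t, σ τ ^ 2 := by
    intro t ht
    unfold Sf
    rw [intervalIntegral.integral_of_le ht]
  have hSnn : ∀ t, 0 ≤ t → 0 ≤ Sf σ t := by
    intro t ht
    rw [hS t ht]
    have : 0 ≤ ∫ τ in Ioc 0 t, σ τ ^ 2 := setIntegral_nonneg measurableSet_Ioc fun t _ => by positivity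
    positivity
  have hSle : ∀ t, 0 ≤ t → Sf σ t ≤ Mf σ := by
    intro t ht
    rw [hS t ht]
    unfold Mf
    apply mul_le_mul_of_nonneg_left _ (by positivity)
    apply setIntegral_mono_set hi
    · exact Eventually.of_forall fun t => by positivity
    · exact Ioc_subset_Ioi_self.eventuallyLE
  have hSder : ∀ t, 0 < t → HasDerivAt (Sf σ) (4 * π * σ t ^ 2) t := by
    intro t ht
    have hca : ContinuousAt (fun r => σ r ^ 2) t := ((hc.continuousAt (Ioi_mem_nhds ht))).pow 2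
    have h1 : IntervalIntegrable (fun r => σ r ^ 2) volume 0 t := by
      rw [intervalIntegrable_iff_integrableOn_Ioc_of_le ht.le]
      exact hi.mono_set Ioc_subset_Ioi_self
    have h2 : StronglyMeasurableAtFilter (fun r => σ r ^ 2) (𝓝 t) volume :=
      ContinuousOn.stronglyMeasurableAtFilter isOpen_Ioi (hc.pow 2) t ht
    exact (intervalIntegral.integral_hasDerivAt_right h1 h2 hca).const_mul (4 * π)
  have hScont : ContinuousOn (Sf σ) (Ioi 0) := fun t ht =>
    (hSder t ht).continuousAt.continuousWithinAt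
  have hfc : ContinuousOn (fun τ => (1 - Sf σ τ) / (0 + τ) ^ 2) (Ioi 0) := by
    apply ContinuousOn.div (continuousOn_const.sub hScont)
    · exact (continuousOn_const.add continuousOn_id).pow 2
    · intro τ hτ
      have hτ' : (0 : ℝ) < τ := hτ
      positivity
  have hfb : ∀ τ, 0 < τ → ‖(1 - Sf σ τ) / (0 + τ) ^ 2‖ ≤ (1 + Mf σ) / τ ^ 2 := by
    intro τ hτ
    rw [norm_div, zero_add, Real.norm_eq_abs, Real.norm_eq_abs, abs_of_pos (show (0 : ℝ) < τ ^ 2 by positivity)]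
    apply div_le_div_of_nonneg_right _ (by positivity)
    rw [abs_le]
    have h1 := hSnn τ hτ.le
    have h2 := hSle τ hτ.le
    constructor <;> linarith
  have hint : ∀ t, 0 < t → IntegrableOn (fun τ => (1 - Sf σ τ) / (0 + τ) ^ 2) (Ioi t) := by
    intro t ht
    refine Integrable.mono' (integrable_inv_sq ht (1 + Mf σ) (by linarith)).1 ?_ ?_
    · exact (hfc.mono (Ioi_subset_Ioi ht.le)).aestronglyMeasurable measurableSet_Ioi
    · filter_upwards [ae_restrict_mem measurableSet_Ioi] with τ hτ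
      exact hfb τ (lt_trans ht hτ)
  have hder : ∀ t, 0 < t → HasDerivAt (phi 0 σ) (-((1 - Sf σ t) / (0 + t) ^ 2)) t := by
    intro t ht
    set a := t / 2 with ha
    have ha0 : 0 < a := by positivity
    have hat : a < t := by rw [ha]; linarith
    have h1 : IntervalIntegrable (fun τ => (1 - Sf σ τ) / (0 + τ) ^ 2) volume a t := by
      rw [intervalIntegrable_iff_integrableOn_Ioc_of_le hat.le]
      exact (hint a ha0).mono_set Ioc_subset_Ioi_self
    have h2 : StronglyMeasurableAtFilter (fun τ => (1 - Sf σ τ) / (0 + τ) ^ 2) (𝓝 t) volume :=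
      ContinuousOn.stronglyMeasurableAtFilter isOpen_Ioi hfc t ht
    have h3 := intervalIntegral.integral_hasDerivAt_right h1 h2 (hfc.continuousAt (Ioi_mem_nhds ht))
    have h4 : phi 0 σ =ᶠ[𝓝 t] fun u => (∫ τ in Ioi a, (1 - Sf σ τ) / (0 + τ) ^ 2) -
        ∫ τ in a..u, (1 - Sf σ τ) / (0 + τ) ^ 2 := by
      filter_upwards [Ioi_mem_nhds hat] with u hu
      have hu' : a < u := hu
      unfold phi
      rw [intervalIntegral.integral_of_le hu'.le]
      have h5 : Ioi a = Ioc a u ∪ Ioi u := (Ioc_union_Ioi_eq_Ioi hu'.le).symm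
      have h6 := setIntegral_union (Ioc_disjoint_Ioi le_rfl : Disjoint (Ioc a u) (Ioi u)) measurableSet_Ioi
        ((hint a ha0).mono_set (Ioc_subset_Ioi_self : Ioc a u ⊆ Ioi a)) ((hint a ha0).mono_set (Ioi_subset_Ioi hu'.le))
      rw [h5, h6]
      ring
    refine HasDerivAt.congr_of_eventuallyEq ?_ h4
    exact (h3.const_sub _)
  refine ⟨hM, hSnn, hSle, hSder, hint, hder, ?_⟩
  intro t ht
  unfold phi
  rw [← Real.norm_eq_abs]
  refine le_trans (norm_integral_le_integral_norm _) ?_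
  have h1 := integrable_inv_sq ht (1 + Mf σ) (by linarith)
  rw [← h1.2]
  refine setIntegral_mono_on (hint t ht).norm h1.1 measurableSet_Ioi ?_
  intro τ hτ
  exact hfb τ (lt_trans ht hτ)

end Pool.Agent.H54.HM
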